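import Mathlib

set_option autoImplicit false

namespace Pool.Agent.H248R2.Ortho

/-- The cells (shifted by `(1, 1, 1)`) of the orthostack. -/
def cellB (i j k : ℕ) : Bool :=
  (Nat.ble 1 i && Nat.ble i 5 && Nat.ble 1 j && Nat.ble j 7 && Nat.ble 1 k && Nat.ble k 1) ||
  (Nat.ble 2 i && Nat.ble i 4 && Nat.ble 1 j && Nat.ble j 1 && Nat.ble 1 k && Nat.ble k 4) ||
  (Nat.ble 3 i && Nat.ble i 3 && Nat.ble 1 j && Nat.ble j 4 && Nat.ble 1 k && Nat.ble k 4) ||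
  (Nat.ble 2 i && Nat.ble i 4 && Nat.ble 4 j && Nat.ble j 6 && Nat.ble 1 k && Nat.ble k 5)

def up (a : ℕ) (f s : Bool) : ℕ := bif f && s then a + 1 else a

def patB (a0 a1 a2 : ℕ) (f0 f1 f2 s0 s1 s2 : Bool) : Bool :=
  cellB (up a0 f0 s0) (up a1 f1 s1) (up a2 f2 s2)

/-- all eight values -/
def allB (p : Bool → Bool → Bool → Bool) : Bool :=
  p false false false && p false false true && p false true false && p false true true &&
  p true false false && p true false true && p true true false && p true true true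

def dsB (p : Bool → Bool → Bool → Bool) (t0 t1 t2 : Bool) : Bool :=
  allB fun s0 s1 s2 => !(p s0 s1 s2) ||
    (p (!t0) s1 s2 && p s0 (!t1) s2 && p s0 s1 (!t2))

def pfB (p : Bool → Bool → Bool → Bool) : Bool :=
  allB (fun s0 s1 s2 => p s0 s1 s2 == s0) || allB (fun s0 s1 s2 => p s0 s1 s2 == !s0) ||
  allB (fun s0 s1 s2 => p s0 s1 s2 == s1) || allB (fun s0 s1 s2 => p s0 s1 s2 == !s1) ||
  allB (fun s0 s1 s2 => p s0 s1 s2 == s2) || allB (fun s0 s1 s2 => p s0 s1 s2 == !s2)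

def frB (p : Bool → Bool → Bool → Bool) : Bool :=
  !(allB p) && !(allB fun s0 s1 s2 => !(p s0 s1 s2))

def someDs (p : Bool → Bool → Bool → Bool) : Bool :=
  dsB p true true true || dsB p true true false || dsB p true false true ||
  dsB p true false false || dsB p false true true || dsB p false true false ||
  dsB p false false true || dsB p false false false

/-- The edges of the orthostack: pairs of opposite end points. -/
def edges : List ((ℕ × ℕ × ℕ) × (ℕ × ℕ × ℕ)) :=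
  [((0,0,0),(5,0,0)), ((0,0,0),(0,7,0)), ((0,7,0),(5,7,0)), ((5,0,0),(5,7,0)), ((0,0,0),(0,0,1)),
  ((0,0,1),(1,0,1)), ((0,0,1),(0,7,1)), ((0,7,1),(5,7,1)), ((1,0,1),(1,1,1)), ((1,1,1),(2,1,1)),
  ((2,1,1),(2,3,1)), ((1,3,1),(2,3,1)), ((1,3,1),(1,6,1)), ((1,6,1),(4,6,1)), ((4,3,1),(4,6,1)),
  ((3,3,1),(4,3,1)), ((3,1,1),(3,3,1)), ((3,1,1),(4,1,1)), ((4,0,1),(4,1,1)), ((4,0,1),(5,0,1)),
  ((5,0,1),(5,7,1)), ((0,7,0),(0,7,1)), ((1,0,1),(1,0,4)), ((1,0,4),(4,0,4)), ((1,0,4),(1,1,4)),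
  ((1,1,4),(2,1,4)), ((2,1,4),(2,3,4)), ((2,3,4),(3,3,4)), ((3,1,4),(3,3,4)), ((3,1,4),(4,1,4)),
  ((4,0,4),(4,1,4)), ((1,1,1),(1,1,4)), ((1,3,1),(1,3,5)), ((1,3,5),(4,3,5)), ((1,3,5),(1,6,5)),
  ((1,6,5),(4,6,5)), ((4,3,5),(4,6,5)), ((1,6,1),(1,6,5)), ((2,1,1),(2,1,4)), ((2,3,1),(2,3,4)),
  ((3,1,1),(3,1,4)), ((3,3,1),(3,3,4)), ((4,0,1),(4,0,4)), ((4,1,1),(4,1,4)), ((4,3,1),(4,3,5)),
  ((4,6,1),(4,6,5)), ((5,0,0),(5,0,1)), ((5,7,0),(5,7,1))]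

def parents : List ℕ :=
  [0, 0, 1, 0, 0, 4, 4, 6, 5, 8, 9, 10, 11, 12, 13, 14, 15, 16, 17, 18, 7, 1, 5, 22, 22, 24, 25,
  26, 27, 28, 23, 8, 11, 32, 32, 34, 33, 12, 9, 10, 16, 15, 18, 17, 14, 13, 0, 2]

/-- the coordinates of type `(a, f)` lie between `p` and `q`; a coordinate of type `(a, true)` is
equal to `a`, one of type `(a, false)` is in the open interval `(a - 1, a)` -/
def inB (p q a : ℕ) (f : Bool) : Bool :=
  bif f then Nat.ble p a && Nat.ble a q else Nat.ble (p + 1) a && Nat.ble a q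

def onEdge (e : (ℕ × ℕ × ℕ) × (ℕ × ℕ × ℕ)) (a0 a1 a2 : ℕ) (f0 f1 f2 : Bool) : Bool :=
  inB e.1.1 e.2.1 a0 f0 && inB e.1.2.1 e.2.2.1 a1 f1 && inB e.1.2.2 e.2.2.2 a2 f2

def good (a0 a1 a2 : ℕ) (f0 f1 f2 : Bool) : Bool :=
  (bif frB (patB a0 a1 a2 f0 f1 f2) then
    someDs (patB a0 a1 a2 f0 f1 f2) &&
      (pfB (patB a0 a1 a2 f0 f1 f2) != edges.any fun e => onEdge e a0 a1 a2 f0 f1 f2)
  else !(edges.any fun e => onEdge e a0 a1 a2 f0 f1 f2))

def goodAll : Bool :=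
  (List.range 6).all fun a0 => (List.range 8).all fun a1 => (List.range 6).all fun a2 =>
    allB fun f0 f1 f2 => good a0 a1 a2 f0 f1 f2

set_option maxRecDepth 100000 in
theorem goodAll_eq : goodAll = true := by decide +kernel

end Pool.Agent.H248R2.Ortho
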