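import Pool.Agent.H248R2.OrthoSurface
import Pool.Agent.H248R2.OrthoCheck

set_option autoImplicit false

open Set Metric Topology Filter

namespace Pool.Agent.H248R2.Ortho

/-- The cells of the orthostack. -/
def occ (m : Fin 3 → ℤ) : Prop :=
  ((0 ≤ m 0 ∧ m 0 < 5) ∧ (0 ≤ m 1 ∧ m 1 < 7) ∧ (0 ≤ m 2 ∧ m 2 < 1)) ∨
  ((1 ≤ m 0 ∧ m 0 < 4) ∧ (0 ≤ m 1 ∧ m 1 < 1) ∧ (0 ≤ m 2 ∧ m 2 < 4)) ∨
  ((2 ≤ m 0 ∧ m 0 < 3) ∧ (0 ≤ m 1 ∧ m 1 < 4) ∧ (0 ≤ m 2 ∧ m 2 < 4)) ∨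
  ((1 ≤ m 0 ∧ m 0 < 4) ∧ (3 ≤ m 1 ∧ m 1 < 6) ∧ (0 ≤ m 2 ∧ m 2 < 5))

/-- The orthostack. -/
def S : Set E3 := {x |
  ((0 ≤ x 0 ∧ x 0 ≤ 5) ∧ (0 ≤ x 1 ∧ x 1 ≤ 7) ∧ (0 ≤ x 2 ∧ x 2 ≤ 1)) ∨
  ((1 ≤ x 0 ∧ x 0 ≤ 4) ∧ (0 ≤ x 1 ∧ x 1 ≤ 1) ∧ (0 ≤ x 2 ∧ x 2 ≤ 4)) ∨
  ((2 ≤ x 0 ∧ x 0 ≤ 3) ∧ (0 ≤ x 1 ∧ x 1 ≤ 4) ∧ (0 ≤ x 2 ∧ x 2 ≤ 4)) ∨
  ((1 ≤ x 0 ∧ x 0 ≤ 4) ∧ (3 ≤ x 1 ∧ x 1 ≤ 6) ∧ (0 ≤ x 2 ∧ x 2 ≤ 5))}

theorem coord_iff (lo hi : ℤ) (h : lo < hi) (t : ℝ) :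
    ((lo : ℝ) ≤ t ∧ t ≤ hi) ↔ ∃ s, lo ≤ idx t s ∧ idx t s < hi := by
  constructor
  · rintro ⟨h1, h2⟩
    rcases h2.lt_or_eq with h3 | h3
    · refine ⟨true, ?_, ?_⟩
      · simp only [idx, if_true]; exact Int.le_floor.2 h1
      · simp only [idx, if_true]; exact Int.floor_lt.2 h3
    · refine ⟨false, ?_, ?_⟩
      · simp only [idx, Bool.false_eq_true, if_false, h3, Int.ceil_intCast]; omega
      · simp only [idx, Bool.false_eq_true, if_false, h3, Int.ceil_intCast]; omega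
  · rintro ⟨s, h1, h2⟩
    cases s
    · simp only [idx, Bool.false_eq_true, if_false] at h1 h2
      have h3 : lo < ⌈t⌉ := by omega
      have h4 : ⌈t⌉ ≤ hi := by omega
      exact ⟨(Int.lt_ceil.1 h3).le, Int.ceil_le.1 h4⟩
    · simp only [idx, if_true] at h1 h2
      exact ⟨Int.le_floor.1 h1, (Int.floor_lt.1 h2).le⟩

theorem S_eq : S = body occ := by
  ext x
  have c := fun (lo hi : ℤ) (h : lo < hi) (i : Fin 3) => coord_iff lo hi h (x i)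
  have k01 := c 0 5 (by norm_num) 0
  have k02 := c 1 4 (by norm_num) 0
  have k03 := c 2 3 (by norm_num) 0
  have k11 := c 0 7 (by norm_num) 1
  have k12 := c 0 1 (by norm_num) 1
  have k13 := c 0 4 (by norm_num) 1
  have k14 := c 3 6 (by norm_num) 1
  have k21 := c 0 1 (by norm_num) 2
  have k22 := c 0 4 (by norm_num) 2
  have k23 := c 0 5 (by norm_num) 2
  push_cast at k01 k02 k03 k11 k12 k13 k14 k21 k22 k23
  simp only [S, mem_ofPred_eq, k01, k02, k03, k11, k12, k13, k14, k21, k22, k23]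
  constructor
  · rintro (⟨⟨s0, h0⟩, ⟨s1, h1⟩, ⟨s2, h2⟩⟩ | ⟨⟨s0, h0⟩, ⟨s1, h1⟩, ⟨s2, h2⟩⟩ |
      ⟨⟨s0, h0⟩, ⟨s1, h1⟩, ⟨s2, h2⟩⟩ | ⟨⟨s0, h0⟩, ⟨s1, h1⟩, ⟨s2, h2⟩⟩)
    · exact ⟨![s0, s1, s2], Or.inl ⟨h0, h1, h2⟩⟩
    · exact ⟨![s0, s1, s2], Or.inr (Or.inl ⟨h0, h1, h2⟩)⟩
    · exact ⟨![s0, s1, s2], Or.inr (Or.inr (Or.inl ⟨h0, h1, h2⟩))⟩
    · exact ⟨![s0, s1, s2], Or.inr (Or.inr (Or.inr ⟨h0, h1, h2⟩))⟩
  · rintro ⟨s, (⟨h0, h1, h2⟩ | ⟨h0, h1, h2⟩ | ⟨h0, h1, h2⟩ | ⟨h0, h1, h2⟩)⟩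
    · exact Or.inl ⟨⟨_, h0⟩, ⟨_, h1⟩, ⟨_, h2⟩⟩
    · exact Or.inr (Or.inl ⟨⟨_, h0⟩, ⟨_, h1⟩, ⟨_, h2⟩⟩)
    · exact Or.inr (Or.inr (Or.inl ⟨⟨_, h0⟩, ⟨_, h1⟩, ⟨_, h2⟩⟩))
    · exact Or.inr (Or.inr (Or.inr ⟨⟨_, h0⟩, ⟨_, h1⟩, ⟨_, h2⟩⟩))

/-- `(a, f)` is the type of the real number `t` -/
def HasType (t : ℝ) (a : ℕ) (f : Bool) : Prop :=
  idx t false = (a : ℤ) - 1 ∧ idx t true = (a : ℤ) - 1 + (if f then 1 else 0)

theorem HasType.idx_eq {t : ℝ} {a : ℕ} {f : Bool} (h : HasType t a f) (s : Bool) :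
    idx t s = (up a f s : ℤ) - 1 := by
  cases s
  · rw [h.1]; simp [up]
  · rw [h.2]; cases f <;> simp [up]

theorem exists_type (t : ℝ) (h : -1 ≤ idx t false) : ∃ a f, HasType t a f := by
  refine ⟨(idx t false + 1).toNat, decide (idx t true = idx t false + 1), ?_, ?_⟩
  · omega
  · rcases idx_cases t with ⟨h1, -⟩ | ⟨h1, -⟩
    · rw [h1]; simp; omega
    · rw [h1]; simp; omega

theorem HasType.inB_iff {t : ℝ} {a : ℕ} {f : Bool} (h : HasType t a f) (p q : ℕ) :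
    inB p q a f = true ↔ (p : ℝ) ≤ t ∧ t ≤ q := by
  rcases idx_cases t with ⟨h1, h2, h3⟩ | ⟨h1, h2⟩
  · have hf : f = false := by
      cases f
      · rfl
      · have e1 := h.1
        have e2 := h.2
        simp only [if_true] at e2
        omega
    subst hf
    have h4 : idx t true = (a : ℤ) - 1 := by rw [h.2]; simp
    rw [h4] at h2 h3
    push_cast at h2 h3
    simp only [inB, cond_false, Bool.and_eq_true, Nat.ble_eq]
    constructor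
    · rintro ⟨h5, h6⟩
      have h5' : (p : ℝ) + 1 ≤ a := by exact_mod_cast h5
      have h6' : (a : ℝ) ≤ q := by exact_mod_cast h6
      constructor <;> linarith
    · rintro ⟨h5, h6⟩
      have h5' : (p : ℝ) < a := by linarith
      have h6' : (a : ℝ) < q + 1 := by linarith
      constructor
      · have : p < a := by exact_mod_cast h5'
        omega
      · have : a < q + 1 := by exact_mod_cast h6'
        omega
  · have hf : f = true := by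
      cases f
      · rw [h.1, h.2] at h1; simp at h1
      · rfl
    subst hf
    have h4 : idx t true = (a : ℤ) := by rw [h.2]; simp
    rw [h4] at h2
    push_cast at h2
    simp only [inB, cond_true, Bool.and_eq_true, Nat.ble_eq]
    rw [h2]
    simp only [Nat.cast_le]

theorem occ_iff {x : E3} {a0 a1 a2 : ℕ} {f0 f1 f2 : Bool} (h0 : HasType (x 0) a0 f0)
    (h1 : HasType (x 1) a1 f1) (h2 : HasType (x 2) a2 f2) (s : Fin 3 → Bool) :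
    occ (pat x s) ↔ patB a0 a1 a2 f0 f1 f2 (s 0) (s 1) (s 2) = true := by
  have e0 := h0.idx_eq (s 0)
  have e1 := h1.idx_eq (s 1)
  have e2 := h2.idx_eq (s 2)
  simp only [occ, pat, e0, e1, e2, patB, cellB, Bool.or_eq_true, Bool.and_eq_true, Nat.ble_eq]
  omega

theorem allB_iff (p : Bool → Bool → Bool → Bool) :
    allB p = true ↔ ∀ s : Fin 3 → Bool, p (s 0) (s 1) (s 2) = true := by
  simp only [allB, Bool.and_eq_true]
  constructor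
  · rintro ⟨⟨⟨⟨⟨⟨⟨h1, h2⟩, h3⟩, h4⟩, h5⟩, h6⟩, h7⟩, h8⟩ s
    cases s 0 <;> cases s 1 <;> cases s 2 <;> assumption
  · intro h
    exact ⟨⟨⟨⟨⟨⟨⟨h ![false, false, false], h ![false, false, true]⟩, h ![false, true, false]⟩,
      h ![false, true, true]⟩, h ![true, false, false]⟩, h ![true, false, true]⟩,
      h ![true, true, false]⟩, h ![true, true, true]⟩

theorem good_of {a0 a1 a2 : ℕ} (h0 : a0 < 6) (h1 : a1 < 8) (h2 : a2 < 6) (f0 f1 f2 : Bool) :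
    good a0 a1 a2 f0 f1 f2 = true := by
  have h := goodAll_eq
  simp only [goodAll, List.all_eq_true, List.mem_range] at h
  have := (allB_iff _).1 (h a0 h0 a1 h1 a2 h2) ![f0, f1, f2]
  exact this

theorem frB_iff {x : E3} {a0 a1 a2 : ℕ} {f0 f1 f2 : Bool} (h0 : HasType (x 0) a0 f0)
    (h1 : HasType (x 1) a1 f1) (h2 : HasType (x 2) a2 f2) :
    frB (patB a0 a1 a2 f0 f1 f2) = true ↔ x ∈ frontier (body occ) := by
  rw [mem_frontier_body]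
  simp only [frB, Bool.and_eq_true, Bool.not_eq_true', ← Bool.not_eq_true, allB_iff,
    occ_iff h0 h1 h2]
  push Not
  tauto

theorem pfB_iff {x : E3} {a0 a1 a2 : ℕ} {f0 f1 f2 : Bool} (h0 : HasType (x 0) a0 f0)
    (h1 : HasType (x 1) a1 f1) (h2 : HasType (x 2) a2 f2) :
    pfB (patB a0 a1 a2 f0 f1 f2) = true ↔ ∃ i, PF occ x i := by
  simp only [PF, Fin.exists_fin_succ, Bool.exists_bool, occ_iff h0 h1 h2, pfB, Bool.or_eq_true,
    allB_iff]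
  simp
  tauto

/-- types of the points of the boundary -/
theorem types_of_frontier {x : E3} (hx : x ∈ frontier (body occ)) :
    ∃ a0 a1 a2 f0 f1 f2, HasType (x 0) a0 f0 ∧ HasType (x 1) a1 f1 ∧ HasType (x 2) a2 f2 ∧
      a0 < 6 ∧ a1 < 8 ∧ a2 < 6 := by
  obtain ⟨⟨s, hs⟩, -⟩ := (mem_frontier_body x).1 hx
  have key : ∀ (t : ℝ) (s : Bool) (n : ℤ), 0 ≤ idx t s → idx t s < n →
      -1 ≤ idx t false ∧ idx t false < n := by
    intro t s n h1 h2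
    rcases idx_cases t with ⟨h3, -⟩ | ⟨h3, -⟩ <;> cases s <;> omega
  have hb : (0 ≤ idx (x 0) (s 0) ∧ idx (x 0) (s 0) < 5) ∧ (0 ≤ idx (x 1) (s 1) ∧
      idx (x 1) (s 1) < 7) ∧ (0 ≤ idx (x 2) (s 2) ∧ idx (x 2) (s 2) < 5) := by
    simp only [occ, pat] at hs
    omega
  obtain ⟨k0, k0'⟩ := key _ _ _ hb.1.1 hb.1.2
  obtain ⟨k1, k1'⟩ := key _ _ _ hb.2.1.1 hb.2.1.2
  obtain ⟨k2, k2'⟩ := key _ _ _ hb.2.2.1 hb.2.2.2
  obtain ⟨a0, f0, h0⟩ := exists_type _ k0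
  obtain ⟨a1, f1, h1⟩ := exists_type _ k1
  obtain ⟨a2, f2, h2⟩ := exists_type _ k2
  refine ⟨a0, a1, a2, f0, f1, f2, h0, h1, h2, ?_, ?_, ?_⟩
  · have := h0.1; omega
  · have := h1.1; omega
  · have := h2.1; omega

theorem dsB_imp {x : E3} {a0 a1 a2 : ℕ} {f0 f1 f2 : Bool} (h0 : HasType (x 0) a0 f0)
    (h1 : HasType (x 1) a1 f1) (h2 : HasType (x 2) a2 f2) (t0 t1 t2 : Bool)
    (h : dsB (patB a0 a1 a2 f0 f1 f2) t0 t1 t2 = true) : DS occ x ![t0, t1, t2] := by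
  intro s s' hs
  rw [occ_iff h0 h1 h2, occ_iff h0 h1 h2]
  have e0 := hs 0
  have e1 := hs 1
  have e2 := hs 2
  simp only [Matrix.cons_val_zero, Matrix.cons_val_one, Matrix.cons_val] at e0 e1 e2
  have key : ∀ s0 s1 s2, patB a0 a1 a2 f0 f1 f2 s0 s1 s2 = true →
      patB a0 a1 a2 f0 f1 f2 (!t0) s1 s2 = true ∧ patB a0 a1 a2 f0 f1 f2 s0 (!t1) s2 = true ∧
      patB a0 a1 a2 f0 f1 f2 s0 s1 (!t2) = true := by
    intro s0 s1 s2 hp
    rw [dsB, allB_iff] at h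
    have := h ![s0, s1, s2]
    simp only [Matrix.cons_val_zero, Matrix.cons_val_one, Matrix.cons_val, hp, Bool.not_true,
      Bool.false_or, Bool.and_eq_true] at this
    exact ⟨this.1.1, this.1.2, this.2⟩
  intro hp
  have s1 : patB a0 a1 a2 f0 f1 f2 (s' 0) (s 1) (s 2) = true := by
    rcases e0 with e | e <;> rw [e]
    · exact hp
    · exact (key _ _ _ hp).1
  have s2 : patB a0 a1 a2 f0 f1 f2 (s' 0) (s' 1) (s 2) = true := by
    rcases e1 with e | e <;> rw [e]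
    · exact s1
    · exact (key _ _ _ s1).2.1
  rcases e2 with e | e <;> rw [e]
  · exact s2
  · exact (key _ _ _ s2).2.2

theorem exists_DS {x : E3} (hx : x ∈ frontier (body occ)) : ∃ σ, DS occ x σ := by
  obtain ⟨a0, a1, a2, f0, f1, f2, h0, h1, h2, b0, b1, b2⟩ := types_of_frontier hx
  have hg := good_of b0 b1 b2 f0 f1 f2
  have hfr := (frB_iff h0 h1 h2).2 hx
  simp only [good, hfr, cond_true, Bool.and_eq_true] at hg
  have hd := hg.1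
  simp only [someDs, Bool.or_eq_true] at hd
  rcases hd with ((((((h | h) | h) | h) | h) | h) | h) | h <;>
    exact ⟨_, dsB_imp h0 h1 h2 _ _ _ h⟩

/-- a closed edge -/
def seg (e : (ℕ × ℕ × ℕ) × (ℕ × ℕ × ℕ)) : Set E3 :=
  {x | ((e.1.1 : ℝ) ≤ x 0 ∧ x 0 ≤ e.2.1) ∧ ((e.1.2.1 : ℝ) ≤ x 1 ∧ x 1 ≤ e.2.2.1) ∧
    ((e.1.2.2 : ℝ) ≤ x 2 ∧ x 2 ≤ e.2.2.2)}

theorem onEdge_iff {x : E3} {a0 a1 a2 : ℕ} {f0 f1 f2 : Bool} (h0 : HasType (x 0) a0 f0)
    (h1 : HasType (x 1) a1 f1) (h2 : HasType (x 2) a2 f2) (e : (ℕ × ℕ × ℕ) × (ℕ × ℕ × ℕ)) :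
    onEdge e a0 a1 a2 f0 f1 f2 = true ↔ x ∈ seg e := by
  simp only [onEdge, Bool.and_eq_true, h0.inB_iff, h1.inB_iff, h2.inB_iff, seg, mem_ofPred_eq]
  tauto

theorem flat_iff (x : E3) : x ∈ flatPoints (body occ) ↔ ∃ i, PF occ x i :=
  ⟨PF_of_mem_flatPoints, fun ⟨_, h⟩ => mem_flatPoints_of_PF h⟩

theorem skeleton_eq : skeleton (body occ) = ⋃ k : Fin edges.length, seg (edges.get k) := by
  ext x
  have hany : ∀ {a0 a1 a2 : ℕ} {f0 f1 f2 : Bool}, HasType (x 0) a0 f0 → HasType (x 1) a1 f1 →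
      HasType (x 2) a2 f2 → ((edges.any fun e => onEdge e a0 a1 a2 f0 f1 f2) = true ↔
        x ∈ ⋃ k : Fin edges.length, seg (edges.get k)) := by
    intro a0 a1 a2 f0 f1 f2 h0 h1 h2
    rw [List.any_eq_true, mem_iUnion]
    constructor
    · rintro ⟨e, he, hoe⟩
      obtain ⟨k, hk⟩ := List.get_of_mem he
      exact ⟨k, by rw [hk]; exact (onEdge_iff h0 h1 h2 e).1 hoe⟩
    · rintro ⟨k, hk⟩
      exact ⟨edges.get k, List.get_mem _ _, (onEdge_iff h0 h1 h2 _).2 hk⟩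
  constructor
  · rintro ⟨hx, hnf⟩
    obtain ⟨a0, a1, a2, f0, f1, f2, h0, h1, h2, b0, b1, b2⟩ := types_of_frontier hx
    have hg := good_of b0 b1 b2 f0 f1 f2
    have hfr := (frB_iff h0 h1 h2).2 hx
    rw [flat_iff, ← pfB_iff h0 h1 h2] at hnf
    rw [← hany h0 h1 h2]
    simp only [good, hfr, cond_true, Bool.and_eq_true] at hg
    have hg2 := hg.2
    rw [Bool.not_eq_true] at hnf
    rw [hnf] at hg2
    simpa using hg2
  · intro hx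
    have hb : ((0 : ℝ) ≤ x 0 ∧ x 0 ≤ 5) ∧ ((0 : ℝ) ≤ x 1 ∧ x 1 ≤ 7) ∧ ((0 : ℝ) ≤ x 2 ∧ x 2 ≤ 5) := by
      obtain ⟨k, hk⟩ := mem_iUnion.1 hx
      have hall : ∀ e ∈ edges, e.2.1 ≤ 5 ∧ e.2.2.1 ≤ 7 ∧ e.2.2.2 ≤ 5 := by decide
      obtain ⟨c0, c1, c2⟩ := hall _ (List.get_mem _ k)
      obtain ⟨⟨d0, d0'⟩, ⟨d1, d1'⟩, ⟨d2, d2'⟩⟩ := hk
      have c0' : ((edges.get k).2.1 : ℝ) ≤ 5 := by exact_mod_cast c0
      have c1' : ((edges.get k).2.2.1 : ℝ) ≤ 7 := by exact_mod_cast c1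
      have c2' : ((edges.get k).2.2.2 : ℝ) ≤ 5 := by exact_mod_cast c2
      refine ⟨⟨le_trans (Nat.cast_nonneg _) d0, d0'.trans c0'⟩,
        ⟨le_trans (Nat.cast_nonneg _) d1, d1'.trans c1'⟩,
        ⟨le_trans (Nat.cast_nonneg _) d2, d2'.trans c2'⟩⟩
    have key : ∀ (t : ℝ) (n : ℕ), 0 ≤ t → t ≤ n → -1 ≤ idx t false ∧ idx t false < n := by
      intro t n h1 h2
      simp only [idx, Bool.false_eq_true, if_false]
      have e1 : (0 : ℤ) ≤ ⌈t⌉ := Int.ceil_nonneg h1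
      have e2 : ⌈t⌉ ≤ (n : ℤ) := Int.ceil_le.2 (by exact_mod_cast h2)
      omega
    obtain ⟨k0, k0'⟩ := key (x 0) 5 hb.1.1 (by exact_mod_cast hb.1.2)
    obtain ⟨k1, k1'⟩ := key (x 1) 7 hb.2.1.1 (by exact_mod_cast hb.2.1.2)
    obtain ⟨k2, k2'⟩ := key (x 2) 5 hb.2.2.1 (by exact_mod_cast hb.2.2.2)
    obtain ⟨a0, f0, h0⟩ := exists_type _ k0
    obtain ⟨a1, f1, h1⟩ := exists_type _ k1
    obtain ⟨a2, f2, h2⟩ := exists_type _ k2
    have b0 : a0 < 6 := by have := h0.1; omega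
    have b1 : a1 < 8 := by have := h1.1; omega
    have b2 : a2 < 6 := by have := h2.1; omega
    have hg := good_of b0 b1 b2 f0 f1 f2
    rw [← hany h0 h1 h2] at hx
    rw [skeleton, Set.mem_sdiff, flat_iff, ← pfB_iff h0 h1 h2, ← frB_iff h0 h1 h2]
    cases hfr : frB (patB a0 a1 a2 f0 f1 f2)
    · simp only [good, hfr, cond_false, hx] at hg
      simp at hg
    · simp only [good, hfr, cond_true, hx, Bool.and_eq_true] at hg
      have := hg.2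
      simp at this
      simp [this]

theorem convex_seg (e : (ℕ × ℕ × ℕ) × (ℕ × ℕ × ℕ)) : Convex ℝ (seg e) := by
  intro x hx y hy a b ha hb hab
  simp only [seg, mem_ofPred_eq, PiLp.add_apply, PiLp.smul_apply, smul_eq_mul] at *
  obtain ⟨⟨x1, x2⟩, ⟨x3, x4⟩, ⟨x5, x6⟩⟩ := hx
  obtain ⟨⟨y1, y2⟩, ⟨y3, y4⟩, ⟨y5, y6⟩⟩ := hy
  have key : ∀ p q u v : ℝ, p ≤ u → u ≤ q → p ≤ v → v ≤ q →
      p ≤ a * u + b * v ∧ a * u + b * v ≤ q := by
    intro p q u v h1 h2 h3 h4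
    have hb' : b = 1 - a := by linarith
    subst hb'
    constructor <;> nlinarith
  exact ⟨key _ _ _ _ x1 x2 y1 y2, key _ _ _ _ x3 x4 y3 y4, key _ _ _ _ x5 x6 y5 y6⟩

/-- every edge but the first one meets an earlier edge -/
def linkB (k : ℕ) : Bool :=
  match edges[k]?, edges[(parents.getD k 0)]? with
  | some e, some g =>
    Nat.ble (max e.1.1 g.1.1) (min e.2.1 g.2.1) &&
    Nat.ble (max e.1.2.1 g.1.2.1) (min e.2.2.1 g.2.2.1) &&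
    Nat.ble (max e.1.2.2 g.1.2.2) (min e.2.2.2 g.2.2.2) && (k == 0 || parents.getD k 0 < k)
  | _, _ => false

theorem linkB_all : ∀ k < 48, linkB k = true := by decide +kernel

theorem edges_length : edges.length = 48 := rfl

theorem skeleton_connected : IsConnected (skeleton (body occ)) := by
  rw [skeleton_eq]
  have hne : ∀ e ∈ edges, e.1.1 ≤ e.2.1 ∧ e.1.2.1 ≤ e.2.2.1 ∧ e.1.2.2 ≤ e.2.2.2 := by decide
  have hconn : ∀ k : Fin edges.length, IsConnected (seg (edges.get k)) := by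
    intro k
    obtain ⟨h1, h2, h3⟩ := hne _ (List.get_mem edges k)
    refine ⟨⟨!₂[((edges.get k).1.1 : ℝ), ((edges.get k).1.2.1 : ℝ), ((edges.get k).1.2.2 : ℝ)],
      ⟨le_refl _, Nat.cast_le.2 h1⟩, ⟨le_refl _, Nat.cast_le.2 h2⟩,
      ⟨le_refl _, Nat.cast_le.2 h3⟩⟩, (convex_seg _).isPreconnected⟩
  have : Nonempty (Fin edges.length) := ⟨⟨0, by decide⟩⟩
  apply IsConnected.iUnion_of_reflTransGen hconn
  have hlink : ∀ k : Fin edges.length, k.1 ≠ 0 → ∃ j : Fin edges.length, j < k ∧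
      (seg (edges.get k) ∩ seg (edges.get j)).Nonempty := by
    intro k hk
    have hB := linkB_all k.1 k.2
    unfold linkB at hB
    rw [List.getElem?_eq_getElem k.2] at hB
    split at hB
    · rename_i e g he hg
      obtain ⟨hj, hg'⟩ := List.getElem?_eq_some_iff.1 hg
      simp only [Option.some.injEq] at he
      simp only [Bool.and_eq_true, Nat.ble_eq, Bool.or_eq_true, beq_iff_eq, hk, false_or,
        decide_eq_true_eq, max_le_iff, le_min_iff] at hB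
      refine ⟨⟨parents.getD k.1 0, hj⟩, hB.2, ?_⟩
      have e1 : edges.get k = e := he
      have e2 : edges.get ⟨parents.getD k.1 0, hj⟩ = g := hg'
      rw [e1, e2]
      obtain ⟨⟨⟨⟨⟨a1, a2⟩, ⟨a3, a4⟩⟩, ⟨⟨b1, b2⟩, ⟨b3, b4⟩⟩⟩, ⟨⟨c1, c2⟩, ⟨c3, c4⟩⟩⟩, -⟩ := hB
      refine ⟨!₂[((max e.1.1 g.1.1 : ℕ) : ℝ), ((max e.1.2.1 g.1.2.1 : ℕ) : ℝ),
        ((max e.1.2.2 g.1.2.2 : ℕ) : ℝ)], ?_, ?_⟩
      · refine ⟨⟨?_, ?_⟩, ⟨?_, ?_⟩, ⟨?_, ?_⟩⟩ <;> simp only [Fin.isValue,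
          Matrix.cons_val_zero, Matrix.cons_val_one, Matrix.cons_val, Nat.cast_le] <;> omega
      · refine ⟨⟨?_, ?_⟩, ⟨?_, ?_⟩, ⟨?_, ?_⟩⟩ <;> simp only [Fin.isValue,
          Matrix.cons_val_zero, Matrix.cons_val_one, Matrix.cons_val, Nat.cast_le] <;> omega
    · simp at hB
  -- everything is linked with the first edge
  have h0 : ∀ k : Fin edges.length, Relation.ReflTransGen
      (fun i j => (seg (edges.get i) ∩ seg (edges.get j)).Nonempty) k ⟨0, by decide⟩ := by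
    intro k
    obtain ⟨n, hn⟩ : ∃ n, n = k.1 := ⟨_, rfl⟩
    induction n using Nat.strong_induction_on generalizing k with
    | _ n ih =>
      by_cases hk : k.1 = 0
      · have : k = ⟨0, by decide⟩ := Fin.ext hk
        rw [this]
      · obtain ⟨j, hj, hne'⟩ := hlink k hk
        exact Relation.ReflTransGen.head hne' (ih j.1 (by rw [hn]; exact hj) j rfl)
  have hsymm : ∀ i j : Fin edges.length, Relation.ReflTransGen
      (fun i j => (seg (edges.get i) ∩ seg (edges.get j)).Nonempty) i j → Relation.ReflTransGen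
      (fun i j => (seg (edges.get i) ∩ seg (edges.get j)).Nonempty) j i := by
    intro i j h
    induction h with
    | refl => exact Relation.ReflTransGen.refl
    | tail _ h2 ih => exact Relation.ReflTransGen.head (by rwa [inter_comm]) ih
  intro i j
  exact (h0 i).trans (hsymm _ _ (h0 j))

end Pool.Agent.H248R2.Ortho

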