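import Pool.Agent.H248R2.OrthoCheck

set_option autoImplicit false

namespace Pool.Agent.H248R2.Ortho

/-- The closed (`false`) or open (`true`) interval with the given end points. -/
abbrev Iv := ℕ × ℕ × Bool

def ivB (c : Iv) (a : ℕ) (f : Bool) : Bool :=
  bif c.2.2 then
    (bif f then (Nat.blt c.1 a && Nat.blt a c.2.1) else (Nat.blt c.1 a && Nat.ble a c.2.1))
  else inB c.1 c.2.1 a f

/-- Products of three intervals. -/
abbrev Bx := Iv × Iv × Iv

def bxB (e : Bx) (a0 a1 a2 : ℕ) (f0 f1 f2 : Bool) : Bool :=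
  ivB e.1 a0 f0 && ivB e.2.1 a1 f1 && ivB e.2.2 a2 f2

def regB (L : List Bx) (a0 a1 a2 : ℕ) (f0 f1 f2 : Bool) : Bool :=
  L.any fun e => bxB e a0 a1 a2 f0 f1 f2

/-- the tower -/
def boxT : Bx := ((1,4,false),(3,6,false),(1,5,false))

def regO : List Bx := [((0,2,true),(2,7,true),(1,6,true)), ((3,5,true),(2,7,true),(1,6,true)),
  ((0,5,true),(3,7,true),(1,6,true)), ((0,5,true),(2,7,true),(4,6,true))]

def gam1 : Bx := ((1,4,true),(6,6,false),(1,1,false))
def gam2 : Bx := ((1,1,false),(3,6,true),(1,1,false))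
def gam3 : Bx := ((4,4,false),(3,6,true),(1,1,false))
def gam4 : Bx := ((1,2,true),(3,3,false),(1,1,false))
def gam5 : Bx := ((3,4,true),(3,3,false),(1,1,false))
def gam6 : Bx := ((2,2,false),(3,3,false),(1,4,true))
def gam7 : Bx := ((3,3,false),(3,3,false),(1,4,true))
def gam8 : Bx := ((2,3,true),(3,3,false),(4,4,false))

def regGam : List Bx := [gam1, gam2, gam3, gam4, gam5, gam6, gam7, gam8]

def regV : List Bx := [((1,1,false),(6,6,false),(1,1,false)), ((4,4,false),(6,6,false),(1,1,false)),
  ((1,1,false),(3,3,false),(1,1,false)), ((4,4,false),(3,3,false),(1,1,false)),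
  ((2,2,false),(3,3,false),(1,1,false)), ((3,3,false),(3,3,false),(1,1,false)),
  ((2,2,false),(3,3,false),(4,4,false)), ((3,3,false),(3,3,false),(4,4,false))]

def chk (P : ℕ → ℕ → ℕ → Bool → Bool → Bool → Bool) : Bool :=
  (List.range 6).all fun a0 => (List.range 8).all fun a1 => (List.range 6).all fun a2 =>
    allB fun f0 f1 f2 => P a0 a1 a2 f0 f1 f2

def towerB (a0 a1 a2 : ℕ) (f0 f1 f2 : Bool) : Bool :=
  bif frB (patB a0 a1 a2 f0 f1 f2) then
    (bif bxB boxT a0 a1 a2 f0 f1 f2 then
      (bif regB regO a0 a1 a2 f0 f1 f2 then true else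
        (regB regGam a0 a1 a2 f0 f1 f2 || regB regV a0 a1 a2 f0 f1 f2) &&
          !(pfB (patB a0 a1 a2 f0 f1 f2)))
    else
      (bif regB regO a0 a1 a2 f0 f1 f2 then !(pfB (patB a0 a1 a2 f0 f1 f2)) else true))
  else true

set_option maxRecDepth 100000 in
theorem towerB_all : chk towerB = true := by decide +kernel

/-- the neighbourhood `N` of a piece of the boundary between the tower and the rest, a region `W`
of the tower and a region `G` of the rest -/
def pieceB (N : Bx) (W G : List Bx) (a0 a1 a2 : ℕ) (f0 f1 f2 : Bool) : Bool :=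
  (bif regB W a0 a1 a2 f0 f1 f2 || regB G a0 a1 a2 f0 f1 f2 then
    frB (patB a0 a1 a2 f0 f1 f2) && pfB (patB a0 a1 a2 f0 f1 f2) else true) &&
  (bif bxB N a0 a1 a2 f0 f1 f2 then
    (bif frB (patB a0 a1 a2 f0 f1 f2) && pfB (patB a0 a1 a2 f0 f1 f2) then
      (bif bxB boxT a0 a1 a2 f0 f1 f2 then regB W a0 a1 a2 f0 f1 f2
        else regB G a0 a1 a2 f0 f1 f2) else true) else true)

def N1 : Bx := ((1,4,true),(5,7,true),(0,2,true))
def N2 : Bx := ((0,2,true),(3,6,true),(0,2,true))
def N3 : Bx := ((3,5,true),(3,6,true),(0,2,true))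
def N4 : Bx := ((1,2,true),(2,4,true),(0,2,true))
def N5 : Bx := ((3,4,true),(2,4,true),(0,2,true))
def N6 : Bx := ((1,3,true),(2,4,true),(1,4,true))
def N7 : Bx := ((2,4,true),(2,4,true),(1,4,true))
def N8 : Bx := ((2,3,true),(2,4,true),(3,5,true))

def WN : List Bx := [((1,4,true),(6,6,false),(1,5,true))]
def WW : List Bx := [((1,1,false),(3,6,true),(1,5,true))]
def WE : List Bx := [((4,4,false),(3,6,true),(1,5,true))]
def WS : List Bx := [((1,2,true),(3,3,false),(1,5,true)), ((1,4,true),(3,3,false),(4,5,true)),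
  ((3,4,true),(3,3,false),(1,5,true))]
def F1 : List Bx := [((0,2,true),(1,3,true),(1,1,false)), ((3,5,true),(1,3,true),(1,1,false)),
  ((0,1,true),(0,7,true),(1,1,false)), ((0,5,true),(6,7,true),(1,1,false)),
  ((4,5,true),(0,7,true),(1,1,false))]
def RL : List Bx := [((2,2,false),(1,3,true),(1,4,true))]
def RR : List Bx := [((3,3,false),(1,3,true),(1,4,true))]
def RT : List Bx := [((1,4,true),(0,1,true),(4,4,false)), ((2,3,true),(0,3,true),(4,4,false))]

set_option maxRecDepth 100000 in
theorem piece1 : chk (pieceB N1 WN F1) = true := by decide +kernel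
set_option maxRecDepth 100000 in
theorem piece2 : chk (pieceB N2 WW F1) = true := by decide +kernel
set_option maxRecDepth 100000 in
theorem piece3 : chk (pieceB N3 WE F1) = true := by decide +kernel
set_option maxRecDepth 100000 in
theorem piece4 : chk (pieceB N4 WS F1) = true := by decide +kernel
set_option maxRecDepth 100000 in
theorem piece5 : chk (pieceB N5 WS F1) = true := by decide +kernel
set_option maxRecDepth 100000 in
theorem piece6 : chk (pieceB N6 WS RL) = true := by decide +kernel
set_option maxRecDepth 100000 in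
theorem piece7 : chk (pieceB N7 WS RR) = true := by decide +kernel
set_option maxRecDepth 100000 in
theorem piece8 : chk (pieceB N8 WS RT) = true := by decide +kernel

end Pool.Agent.H248R2.Ortho
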