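import Mathlib

set_option autoImplicit false

open Set Metric

namespace Pool.Agent.H248R2.Ortho

/-- Euclidean 3-space. -/
abbrev E3 := EuclideanSpace ℝ (Fin 3)

/-- The Euclidean plane. -/
abbrev E2 := EuclideanSpace ℝ (Fin 2)

/-- The closed axis-parallel box with opposite corners `lo` and `hi`. -/
def box {d : ℕ} (lo hi : Fin d → ℝ) : Set (EuclideanSpace ℝ (Fin d)) :=
  {x | ∀ i, lo i ≤ x i ∧ x i ≤ hi i}

/-- `S` is a union of finitely many nondegenerate closed axis-parallel boxes (rectangles, in the
plane). -/
def IsBoxUnion {d : ℕ} (S : Set (EuclideanSpace ℝ (Fin d))) : Prop :=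
  ∃ (n : ℕ) (lo hi : Fin n → Fin d → ℝ), (∀ k i, lo k i < hi k i) ∧ S = ⋃ k, box (lo k) (hi k)

/-- Orthogonal polyhedra: finite unions of axis-parallel boxes with connected interior whose
boundary is a topological surface (every boundary point has an open neighbourhood in the boundary
which is homeomorphic to an open subset of the plane). -/
structure IsOrthogonalPolyhedron (S : Set E3) : Prop where
  boxes : IsBoxUnion S
  connected : IsConnected (interior S)
  surface : ∀ x ∈ frontier S, ∃ U : Set E3, IsOpen U ∧ x ∈ U ∧
    ∃ V : Set E2, IsOpen V ∧ Nonempty (↥(frontier S ∩ U) ≃ₜ ↥V)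

/-- Orthogonal polygons without holes (as closed regions of the plane): finite unions of
axis-parallel rectangles with connected interior and connected complement. -/
structure IsOrthogonalPolygon (Q : Set E2) : Prop where
  boxes : IsBoxUnion Q
  connected : IsConnected (interior Q)
  noHoles : IsConnected Qᶜ

/-- The slice of `S` by the plane `z = c`. -/
def slice (S : Set E3) (c : ℝ) : Set E2 := {p | !₂[p 0, p 1, c] ∈ S}

/-- Orthostacks: orthogonal polyhedra all of whose slices by planes `z = c` are empty or one
orthogonal polygon without holes. -/
def IsOrthostack (S : Set E3) : Prop :=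
  IsOrthogonalPolyhedron S ∧ ∀ c : ℝ, slice S c = ∅ ∨ IsOrthogonalPolygon (slice S c)

/-- The boundary points of `S` near which the boundary of `S` is a plane orthogonal to a
coordinate axis. -/
def flatPoints (S : Set E3) : Set E3 :=
  {x | x ∈ frontier S ∧ ∃ i : Fin 3, ∃ ε > 0, ∀ y ∈ ball x ε, y ∈ frontier S ↔ y i = x i}

/-- The faces of `S`: the closures of the connected components of the set of flat boundary
points. -/
def IsFace (S F : Set E3) : Prop :=
  ∃ x ∈ flatPoints S, F = closure (connectedComponentIn (flatPoints S) x)

/-- The union of all edges of `S`: the boundary points at which the boundary is not flat. -/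
def skeleton (S : Set E3) : Set E3 := frontier S \ flatPoints S

/-- The map `place F` puts the face `F` into the plane. Two faces are joined to each other if their
placements agree on some nondegenerate segment of their common boundary (this is so if the edge
between them is not cut). -/
def Joined (place : Set E3 → E3 → E2) (F G : Set E3) : Prop :=
  ∃ a b : E3, a ≠ b ∧ segment ℝ a b ⊆ F ∩ G ∧ ∀ x ∈ segment ℝ a b, place F x = place G x

/-- `S` has an edge unfolding: its (uncut) faces can be placed isometrically in the plane such that
the relative interiors of different faces do not overlap and all faces hang together along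
uncut edges. (For an edge unfolding to a simple polygon one requires even more.) -/
def HasEdgeUnfolding (S : Set E3) : Prop :=
  ∃ place : Set E3 → E3 → E2,
    (∀ F, IsFace S F → ∀ x ∈ F, ∀ y ∈ F, dist (place F x) (place F y) = dist x y) ∧
    (∀ F G, IsFace S F → IsFace S G → F ≠ G →
      Disjoint (place F '' (F ∩ flatPoints S)) (place G '' (G ∩ flatPoints S))) ∧
    (∀ F G, IsFace S F → IsFace S G →
      Relation.ReflTransGen (fun A B => IsFace S A ∧ IsFace S B ∧ Joined place A B) F G)

end Pool.Agent.H248R2.Ortho
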