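import Pool.Agent.H248R2.OrthoUnfold

set_option autoImplicit false

open Set Metric Topology Filter

namespace Pool.Agent.H248R2.Ortho

theorem pre_cons (e : Bx) (L : List Bx) (x : E3) (hx : x ∈ Bx.set e) (hx' : x ∈ Reg L)
    (hL : IsPreconnected (Reg L)) : IsPreconnected (Reg (e :: L)) := by
  rw [reg_cons]
  exact IsPreconnected.union x hx hx' (convex_bx e).isPreconnected hL

theorem mem_bx (e : Bx) (a b c : ℝ) : (!₂[a, b, c] : E3) ∈ Bx.set e ↔
    Iv.mem e.1 a ∧ Iv.mem e.2.1 b ∧ Iv.mem e.2.2 c := Iff.rfl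

theorem WS_pre : IsPreconnected (Reg WS) := by
  refine pre_cons _ _ !₂[3/2, 3, 9/2] ?_ ?_ (pre_cons _ _ !₂[7/2, 3, 9/2] ?_ ?_ (pre_single _))
  · rw [mem_bx]; norm_num [Iv.mem]
  · rw [reg_cons]; left; rw [mem_bx]; norm_num [Iv.mem]
  · rw [mem_bx]; norm_num [Iv.mem]
  · rw [reg_cons]; left; rw [mem_bx]; norm_num [Iv.mem]

theorem RT_pre : IsPreconnected (Reg RT) := by
  refine pre_cons _ _ !₂[5/2, 1/2, 4] ?_ ?_ (pre_single _)
  · rw [mem_bx]; norm_num [Iv.mem]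
  · rw [reg_cons]; left; rw [mem_bx]; norm_num [Iv.mem]

theorem F1_pre : IsPreconnected (Reg F1) := by
  refine pre_cons _ _ !₂[1/2, 2, 1] ?_ ?_ (pre_cons _ _ !₂[9/2, 2, 1] ?_ ?_
    (pre_cons _ _ !₂[1/2, 13/2, 1] ?_ ?_ (pre_cons _ _ !₂[9/2, 13/2, 1] ?_ ?_ (pre_single _))))
  · rw [mem_bx]; norm_num [Iv.mem]
  · rw [reg_cons]; right; rw [reg_cons]; left; rw [mem_bx]; norm_num [Iv.mem]
  · rw [mem_bx]; norm_num [Iv.mem]
  · rw [reg_cons]; right; rw [reg_cons]; right; rw [reg_cons]; left; rw [mem_bx]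
    norm_num [Iv.mem]
  · rw [mem_bx]; norm_num [Iv.mem]
  · rw [reg_cons]; left; rw [mem_bx]; norm_num [Iv.mem]
  · rw [mem_bx]; norm_num [Iv.mem]
  · rw [reg_cons]; left; rw [mem_bx]; norm_num [Iv.mem]

theorem Iv.mem_le {c : Iv} {t : ℝ} (h : Iv.mem c t) : (c.1 : ℝ) ≤ t ∧ t ≤ c.2.1 := by
  unfold Iv.mem at h
  split_ifs at h
  · exact ⟨h.1.le, h.2.le⟩
  · exact h

def BddL (L : List Bx) : Prop := ∀ e ∈ L, e.1.2.1 ≤ 5 ∧ e.2.1.2.1 ≤ 7 ∧ e.2.2.2.1 ≤ 5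

theorem bdd_of_mem {L : List Bx} (hL : BddL L) {x : E3} (hx : x ∈ Reg L) :
    ((0 : ℝ) ≤ x 0 ∧ x 0 ≤ 5) ∧ ((0 : ℝ) ≤ x 1 ∧ x 1 ≤ 7) ∧ ((0 : ℝ) ≤ x 2 ∧ x 2 ≤ 5) := by
  obtain ⟨e, he, h0, h1, h2⟩ := hx
  obtain ⟨c0, c1, c2⟩ := hL e he
  have c0' : (e.1.2.1 : ℝ) ≤ 5 := by exact_mod_cast c0
  have c1' : (e.2.1.2.1 : ℝ) ≤ 7 := by exact_mod_cast c1
  have c2' : (e.2.2.2.1 : ℝ) ≤ 5 := by exact_mod_cast c2
  have d0 := Iv.mem_le h0
  have d1 := Iv.mem_le h1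
  have d2 := Iv.mem_le h2
  exact ⟨⟨le_trans (Nat.cast_nonneg _) d0.1, d0.2.trans c0'⟩,
    ⟨le_trans (Nat.cast_nonneg _) d1.1, d1.2.trans c1'⟩,
    ⟨le_trans (Nat.cast_nonneg _) d2.1, d2.2.trans c2'⟩⟩

theorem piece_flat {N : Bx} {W G : List Bx} (hchk : chk (pieceB N W G) = true) (hbW : BddL W)
    (hbG : BddL G) {x : E3} (hx : x ∈ Reg W ∨ x ∈ Reg G) : x ∈ flatPoints (body occ) := by
  have hb : ((0 : ℝ) ≤ x 0 ∧ x 0 ≤ 5) ∧ ((0 : ℝ) ≤ x 1 ∧ x 1 ≤ 7) ∧ ((0 : ℝ) ≤ x 2 ∧ x 2 ≤ 5) := by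
    rcases hx with h | h
    · exact bdd_of_mem hbW h
    · exact bdd_of_mem hbG h
  obtain ⟨a0, a1, a2, f0, f1, f2, h0, h1, h2, b0, b1, b2⟩ := types_of_bdd hb
  have hc := chk_imp hchk b0 b1 b2 f0 f1 f2
  rw [← mem_flat_of h0 h1 h2]
  rw [← regB_iff h0 h1 h2, ← regB_iff h0 h1 h2, ← Bool.or_eq_true] at hx
  simp only [pieceB, hx, cond_true, Bool.and_eq_true] at hc
  exact hc.1.2

theorem piece_local {N : Bx} {W G : List Bx} (hchk : chk (pieceB N W G) = true) {x : E3}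
    (hx : x ∈ flatPoints (body occ)) (hN : x ∈ Bx.set N) :
    (x ∈ T → x ∈ Reg W) ∧ (x ∉ T → x ∈ Reg G) := by
  obtain ⟨a0, a1, a2, f0, f1, f2, h0, h1, h2, b0, b1, b2⟩ := types_of_frontier (flat_subset hx)
  have hc := chk_imp hchk b0 b1 b2 f0 f1 f2
  have hfr := (frB_iff h0 h1 h2).2 (flat_subset hx)
  rw [← mem_flat_of h0 h1 h2] at hx
  rw [T, ← bxB_iff h0 h1 h2, ← regB_iff h0 h1 h2, ← regB_iff h0 h1 h2]
  rw [← bxB_iff h0 h1 h2] at hN
  simp only [pieceB, hx, hfr, hN, cond_true, Bool.and_eq_true, Bool.true_and] at hc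
  have hc2 := hc.2
  cases e1 : bxB boxT a0 a1 a2 f0 f1 f2 <;> simp only [e1, cond_true, cond_false] at hc2 <;>
    simp [hc2]

theorem subset_comp {R : Set E3} (hR : IsPreconnected R) (hRF : R ⊆ flatPoints (body occ))
    {x w : E3} (hw : w ∈ comp x) (hwR : w ∈ R) : R ⊆ comp x := by
  rw [comp, connectedComponentIn_eq hw]
  exact hR.subset_connectedComponentIn hwR hRF

theorem no_join {N : Bx} {W G : List Bx} {g : Bx} (hchk : chk (pieceB N W G) = true)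
    (hNo : IsOpen (Bx.set N)) (hgN : Bx.set g ⊆ Bx.set N) (hW : IsPreconnected (Reg W))
    (hG : IsPreconnected (Reg G)) (hbW : BddL W) (hbG : BddL G) (p1 p2 q1 q2 : E3)
    (hp1 : p1 ∈ Reg W) (hp2 : p2 ∈ Reg W) (hq1 : q1 ∈ Reg G) (hq2 : q2 ∈ Reg G)
    (hm1 : ∀ c ∈ Bx.set g, dist p1 c = dist q1 c) (hm2 : ∀ c ∈ Bx.set g, dist p2 c = dist q2 c)
    (hd : dist p1 p2 ≠ dist q1 q2) {x y : E3} (hx : comp x ⊆ T) (hy : Disjoint (comp y) T)
    {a b : E3} (hab : a ≠ b) (hag : a ∈ Bx.set g) (hbg : b ∈ Bx.set g)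
    (hax : a ∈ closure (comp x)) (hay : a ∈ closure (comp y)) (hbx : b ∈ closure (comp x))
    (hby : b ∈ closure (comp y)) (fA fB : E3 → E2)
    (hfA : ∀ u ∈ closure (comp x), ∀ v ∈ closure (comp x), dist (fA u) (fA v) = dist u v)
    (hfB : ∀ u ∈ closure (comp y), ∀ v ∈ closure (comp y), dist (fB u) (fB v) = dist u v)
    (hfa : fA a = fB a) (hfb : fA b = fB b)
    (hdisj : Disjoint (fA '' (closure (comp x) ∩ flatPoints (body occ)))
      (fB '' (closure (comp y) ∩ flatPoints (body occ)))) : False := by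
  have hWF : Reg W ⊆ flatPoints (body occ) := fun z hz => piece_flat hchk hbW hbG (Or.inl hz)
  have hGF : Reg G ⊆ flatPoints (body occ) := fun z hz => piece_flat hchk hbW hbG (Or.inr hz)
  have hWx : Reg W ⊆ comp x := by
    obtain ⟨w, hwN, hw⟩ := mem_closure_iff.1 hax _ hNo (hgN hag)
    exact subset_comp hW hWF hw
      ((piece_local hchk (connectedComponentIn_subset _ _ hw) hwN).1 (hx hw))
  have hGy : Reg G ⊆ comp y := by
    obtain ⟨w, hwN, hw⟩ := mem_closure_iff.1 hay _ hNo (hgN hag)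
    exact subset_comp hG hGF hw
      ((piece_local hchk (connectedComponentIn_subset _ _ hw) hwN).2
        (Set.disjoint_left.1 hy hw))
  have P1 := subset_closure (hWx hp1)
  have P2 := subset_closure (hWx hp2)
  have Q1 := subset_closure (hGy hq1)
  have Q2 := subset_closure (hGy hq2)
  have hAB : fA a ≠ fA b := by
    intro h
    have := hfA a hax b hbx
    rw [h, dist_self] at this
    exact hab (dist_eq_zero.1 this.symm)
  have := @plane_lemma (fA a) (fA b) (fA p1) (fA p2) (fB q1) (fB q2) hAB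
    (by rw [hfA _ P1 _ hax, hfa, hfB _ Q1 _ hay, hm1 a hag])
    (by rw [hfA _ P1 _ hbx, hfb, hfB _ Q1 _ hby, hm1 b hbg])
    (by rw [hfA _ P2 _ hax, hfa, hfB _ Q2 _ hay, hm2 a hag])
    (by rw [hfA _ P2 _ hbx, hfb, hfB _ Q2 _ hby, hm2 b hbg])
    (by rw [hfA _ P1 _ P2, hfB _ Q1 _ Q2]; exact hd)
  rw [Set.disjoint_left] at hdisj
  rcases this with h | h
  · exact hdisj ⟨p1, ⟨P1, hWF hp1⟩, rfl⟩ ⟨q1, ⟨Q1, hGF hq1⟩, h.symm⟩
  · exact hdisj ⟨p2, ⟨P2, hWF hp2⟩, rfl⟩ ⟨q2, ⟨Q2, hGF hq2⟩, h.symm⟩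

/-- what we have to know of the placements of a tower face and another face -/
structure Bad (x y : E3) (fA fB : E3 → E2) : Prop where
  hx : comp x ⊆ T
  hy : Disjoint (comp y) T
  hfA : ∀ u ∈ closure (comp x), ∀ v ∈ closure (comp x), dist (fA u) (fA v) = dist u v
  hfB : ∀ u ∈ closure (comp y), ∀ v ∈ closure (comp y), dist (fB u) (fB v) = dist u v
  hdisj : Disjoint (fA '' (closure (comp x) ∩ flatPoints (body occ)))
      (fB '' (closure (comp y) ∩ flatPoints (body occ)))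

/-- the faces are not joined along a piece of the boundary -/
def NoPair (x y : E3) (fA fB : E3 → E2) (g : Bx) : Prop :=
  ∀ a ∈ Bx.set g, ∀ b ∈ Bx.set g, a ∈ closure (comp x) → a ∈ closure (comp y) →
    b ∈ closure (comp x) → b ∈ closure (comp y) → fA a = fB a → fA b = fB b → a = b

theorem Iv.mem_single {n : ℕ} {t : ℝ} (h : Iv.mem (n, n, false) t) : t = n := by
  have := Iv.mem_le h
  exact le_antisymm this.2 this.1

theorem dist_ne {a b c a' b' c' u v w u' v' w' : ℝ}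
    (h : (a - a') ^ 2 + (b - b') ^ 2 + (c - c') ^ 2 ≠
      (u - u') ^ 2 + (v - v') ^ 2 + (w - w') ^ 2) :
    dist (!₂[a, b, c] : E3) !₂[a', b', c'] ≠ dist (!₂[u, v, w] : E3) !₂[u', v', w'] := by
  rw [dist3, dist3, Ne, Real.sqrt_inj (by positivity) (by positivity)]
  exact h

theorem dist_mirror {a b c u v w : ℝ} {x : E3}
    (h : (a - x 0) ^ 2 + (b - x 1) ^ 2 + (c - x 2) ^ 2 =
      (u - x 0) ^ 2 + (v - x 1) ^ 2 + (w - x 2) ^ 2) :
    dist (!₂[a, b, c] : E3) x = dist (!₂[u, v, w] : E3) x := by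
  rw [dist3, dist3]
  exact congrArg _ h

section pieces

variable {x y : E3} {fA fB : E3 → E2}

theorem np1 (h : Bad x y fA fB) : NoPair x y fA fB gam1 := by
  intro a ha b hb h1 h2 h3 h4 h5 h6
  by_contra hab
  refine no_join piece1 (isOpen_bx rfl rfl rfl) ?_ (pre_single _) F1_pre ?_ ?_
    !₂[3/2, 6, 3/2] !₂[3/2, 6, 9/2] !₂[3/2, 13/2, 1] !₂[3/2, 5/2, 1] ?_ ?_ ?_ ?_ ?_ ?_ ?_ h.hx h.hy
    hab ha hb h1 h2 h3 h4 fA fB h.hfA h.hfB h5 h6 h.hdisj
  · rintro z ⟨h0, h1, h2⟩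
    simp [Iv.mem, gam1] at h0 h1 h2
    refine ⟨?_, ?_, ?_⟩ <;> simp [Iv.mem, N1] <;> constructor <;> linarith [h0.1, h0.2, h1.1, h1.2, h2.1, h2.2]
  · unfold BddL; decide
  · unfold BddL; decide
  · simp only [WN, reg_cons, mem_union, mem_bx]; norm_num [Iv.mem]
  · simp only [WN, reg_cons, mem_union, mem_bx]; norm_num [Iv.mem]
  · simp only [F1, reg_cons, mem_union, mem_bx]; norm_num [Iv.mem]
  · simp only [F1, reg_cons, mem_union, mem_bx]; norm_num [Iv.mem]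
  · rintro c ⟨h0, h1, h2⟩
    apply dist_mirror
    rw [Iv.mem_single h1, Iv.mem_single h2]
    norm_num
  · rintro c ⟨h0, h1, h2⟩
    apply dist_mirror
    rw [Iv.mem_single h1, Iv.mem_single h2]
    norm_num
  · apply dist_ne; norm_num

theorem np2 (h : Bad x y fA fB) : NoPair x y fA fB gam2 := by
  intro a ha b hb h1 h2 h3 h4 h5 h6
  by_contra hab
  refine no_join piece2 (isOpen_bx rfl rfl rfl) ?_ (pre_single _) F1_pre ?_ ?_
    !₂[1, 9/2, 3/2] !₂[1, 9/2, 9/2] !₂[1/2, 9/2, 1] !₂[9/2, 9/2, 1] ?_ ?_ ?_ ?_ ?_ ?_ ?_ h.hx h.hy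
    hab ha hb h1 h2 h3 h4 fA fB h.hfA h.hfB h5 h6 h.hdisj
  · rintro z ⟨h0, h1, h2⟩
    simp [Iv.mem, gam2] at h0 h1 h2
    refine ⟨?_, ?_, ?_⟩ <;> simp [Iv.mem, N2] <;> constructor <;> linarith [h0.1, h0.2, h1.1, h1.2, h2.1, h2.2]
  · unfold BddL; decide
  · unfold BddL; decide
  · simp only [WW, reg_cons, mem_union, mem_bx]; norm_num [Iv.mem]
  · simp only [WW, reg_cons, mem_union, mem_bx]; norm_num [Iv.mem]
  · simp only [F1, reg_cons, mem_union, mem_bx]; norm_num [Iv.mem]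
  · simp only [F1, reg_cons, mem_union, mem_bx]; norm_num [Iv.mem]
  · rintro c ⟨h0, h1, h2⟩
    apply dist_mirror
    rw [Iv.mem_single h0, Iv.mem_single h2]
    norm_num
    ring
  · rintro c ⟨h0, h1, h2⟩
    apply dist_mirror
    rw [Iv.mem_single h0, Iv.mem_single h2]
    norm_num
    ring
  · apply dist_ne; norm_num

theorem np3 (h : Bad x y fA fB) : NoPair x y fA fB gam3 := by
  intro a ha b hb h1 h2 h3 h4 h5 h6
  by_contra hab
  refine no_join piece3 (isOpen_bx rfl rfl rfl) ?_ (pre_single _) F1_pre ?_ ?_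
    !₂[4, 9/2, 3/2] !₂[4, 9/2, 9/2] !₂[9/2, 9/2, 1] !₂[1/2, 9/2, 1] ?_ ?_ ?_ ?_ ?_ ?_ ?_ h.hx h.hy
    hab ha hb h1 h2 h3 h4 fA fB h.hfA h.hfB h5 h6 h.hdisj
  · rintro z ⟨h0, h1, h2⟩
    simp [Iv.mem, gam3] at h0 h1 h2
    refine ⟨?_, ?_, ?_⟩ <;> simp [Iv.mem, N3] <;> constructor <;> linarith [h0.1, h0.2, h1.1, h1.2, h2.1, h2.2]
  · unfold BddL; decide
  · unfold BddL; decide
  · simp only [WE, reg_cons, mem_union, mem_bx]; norm_num [Iv.mem]
  · simp only [WE, reg_cons, mem_union, mem_bx]; norm_num [Iv.mem]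
  · simp only [F1, reg_cons, mem_union, mem_bx]; norm_num [Iv.mem]
  · simp only [F1, reg_cons, mem_union, mem_bx]; norm_num [Iv.mem]
  · rintro c ⟨h0, h1, h2⟩
    apply dist_mirror
    rw [Iv.mem_single h0, Iv.mem_single h2]
    norm_num
    ring
  · rintro c ⟨h0, h1, h2⟩
    apply dist_mirror
    rw [Iv.mem_single h0, Iv.mem_single h2]
    norm_num
    ring
  · apply dist_ne; norm_num

theorem np4 (h : Bad x y fA fB) : NoPair x y fA fB gam4 := by
  intro a ha b hb h1 h2 h3 h4 h5 h6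
  by_contra hab
  refine no_join piece4 (isOpen_bx rfl rfl rfl) ?_ WS_pre F1_pre ?_ ?_
    !₂[3/2, 3, 3/2] !₂[3/2, 3, 9/2] !₂[3/2, 5/2, 1] !₂[3/2, 13/2, 1] ?_ ?_ ?_ ?_ ?_ ?_ ?_ h.hx h.hy
    hab ha hb h1 h2 h3 h4 fA fB h.hfA h.hfB h5 h6 h.hdisj
  · rintro z ⟨h0, h1, h2⟩
    simp [Iv.mem, gam4] at h0 h1 h2
    refine ⟨?_, ?_, ?_⟩ <;> simp [Iv.mem, N4] <;> constructor <;> linarith [h0.1, h0.2, h1.1, h1.2, h2.1, h2.2]
  · unfold BddL; decide
  · unfold BddL; decide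
  · simp only [WS, reg_cons, mem_union, mem_bx]; norm_num [Iv.mem]
  · simp only [WS, reg_cons, mem_union, mem_bx]; norm_num [Iv.mem]
  · simp only [F1, reg_cons, mem_union, mem_bx]; norm_num [Iv.mem]
  · simp only [F1, reg_cons, mem_union, mem_bx]; norm_num [Iv.mem]
  · rintro c ⟨h0, h1, h2⟩
    apply dist_mirror
    rw [Iv.mem_single h1, Iv.mem_single h2]
    norm_num
  · rintro c ⟨h0, h1, h2⟩
    apply dist_mirror
    rw [Iv.mem_single h1, Iv.mem_single h2]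
    norm_num
  · apply dist_ne; norm_num

theorem np5 (h : Bad x y fA fB) : NoPair x y fA fB gam5 := by
  intro a ha b hb h1 h2 h3 h4 h5 h6
  by_contra hab
  refine no_join piece5 (isOpen_bx rfl rfl rfl) ?_ WS_pre F1_pre ?_ ?_
    !₂[7/2, 3, 3/2] !₂[7/2, 3, 9/2] !₂[7/2, 5/2, 1] !₂[7/2, 13/2, 1] ?_ ?_ ?_ ?_ ?_ ?_ ?_ h.hx h.hy
    hab ha hb h1 h2 h3 h4 fA fB h.hfA h.hfB h5 h6 h.hdisj
  · rintro z ⟨h0, h1, h2⟩
    simp [Iv.mem, gam5] at h0 h1 h2
    refine ⟨?_, ?_, ?_⟩ <;> simp [Iv.mem, N5] <;> constructor <;> linarith [h0.1, h0.2, h1.1, h1.2, h2.1, h2.2]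
  · unfold BddL; decide
  · unfold BddL; decide
  · simp only [WS, reg_cons, mem_union, mem_bx]; norm_num [Iv.mem]
  · simp only [WS, reg_cons, mem_union, mem_bx]; norm_num [Iv.mem]
  · simp only [F1, reg_cons, mem_union, mem_bx]; norm_num [Iv.mem]
  · simp only [F1, reg_cons, mem_union, mem_bx]; norm_num [Iv.mem]
  · rintro c ⟨h0, h1, h2⟩
    apply dist_mirror
    rw [Iv.mem_single h1, Iv.mem_single h2]
    norm_num
  · rintro c ⟨h0, h1, h2⟩
    apply dist_mirror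
    rw [Iv.mem_single h1, Iv.mem_single h2]
    norm_num
  · apply dist_ne; norm_num

theorem np6 (h : Bad x y fA fB) : NoPair x y fA fB gam6 := by
  intro a ha b hb h1 h2 h3 h4 h5 h6
  by_contra hab
  refine no_join piece6 (isOpen_bx rfl rfl rfl) ?_ WS_pre (pre_single _) ?_ ?_
    !₂[3/2, 3, 2] !₂[7/2, 3, 2] !₂[2, 5/2, 2] !₂[2, 3/2, 2] ?_ ?_ ?_ ?_ ?_ ?_ ?_ h.hx h.hy
    hab ha hb h1 h2 h3 h4 fA fB h.hfA h.hfB h5 h6 h.hdisj
  · rintro z ⟨h0, h1, h2⟩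
    simp [Iv.mem, gam6] at h0 h1 h2
    refine ⟨?_, ?_, ?_⟩ <;> simp [Iv.mem, N6] <;> constructor <;> linarith [h0.1, h0.2, h1.1, h1.2, h2.1, h2.2]
  · unfold BddL; decide
  · unfold BddL; decide
  · simp only [WS, reg_cons, mem_union, mem_bx]; norm_num [Iv.mem]
  · simp only [WS, reg_cons, mem_union, mem_bx]; norm_num [Iv.mem]
  · simp only [RL, reg_cons, mem_union, mem_bx]; norm_num [Iv.mem]
  · simp only [RL, reg_cons, mem_union, mem_bx]; norm_num [Iv.mem]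
  · rintro c ⟨h0, h1, h2⟩
    apply dist_mirror
    rw [Iv.mem_single h0, Iv.mem_single h1]
    norm_num
  · rintro c ⟨h0, h1, h2⟩
    apply dist_mirror
    rw [Iv.mem_single h0, Iv.mem_single h1]
    norm_num
  · apply dist_ne; norm_num

theorem np7 (h : Bad x y fA fB) : NoPair x y fA fB gam7 := by
  intro a ha b hb h1 h2 h3 h4 h5 h6
  by_contra hab
  refine no_join piece7 (isOpen_bx rfl rfl rfl) ?_ WS_pre (pre_single _) ?_ ?_
    !₂[7/2, 3, 2] !₂[3/2, 3, 2] !₂[3, 5/2, 2] !₂[3, 3/2, 2] ?_ ?_ ?_ ?_ ?_ ?_ ?_ h.hx h.hy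
    hab ha hb h1 h2 h3 h4 fA fB h.hfA h.hfB h5 h6 h.hdisj
  · rintro z ⟨h0, h1, h2⟩
    simp [Iv.mem, gam7] at h0 h1 h2
    refine ⟨?_, ?_, ?_⟩ <;> simp [Iv.mem, N7] <;> constructor <;> linarith [h0.1, h0.2, h1.1, h1.2, h2.1, h2.2]
  · unfold BddL; decide
  · unfold BddL; decide
  · simp only [WS, reg_cons, mem_union, mem_bx]; norm_num [Iv.mem]
  · simp only [WS, reg_cons, mem_union, mem_bx]; norm_num [Iv.mem]
  · simp only [RR, reg_cons, mem_union, mem_bx]; norm_num [Iv.mem]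
  · simp only [RR, reg_cons, mem_union, mem_bx]; norm_num [Iv.mem]
  · rintro c ⟨h0, h1, h2⟩
    apply dist_mirror
    rw [Iv.mem_single h0, Iv.mem_single h1]
    norm_num
  · rintro c ⟨h0, h1, h2⟩
    apply dist_mirror
    rw [Iv.mem_single h0, Iv.mem_single h1]
    norm_num
  · apply dist_ne; norm_num

theorem np8 (h : Bad x y fA fB) : NoPair x y fA fB gam8 := by
  intro a ha b hb h1 h2 h3 h4 h5 h6
  by_contra hab
  refine no_join piece8 (isOpen_bx rfl rfl rfl) ?_ WS_pre RT_pre ?_ ?_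
    !₂[5/2, 3, 9/2] !₂[3/2, 3, 3/2] !₂[5/2, 5/2, 4] !₂[3/2, 1/2, 4] ?_ ?_ ?_ ?_ ?_ ?_ ?_ h.hx h.hy
    hab ha hb h1 h2 h3 h4 fA fB h.hfA h.hfB h5 h6 h.hdisj
  · rintro z ⟨h0, h1, h2⟩
    simp [Iv.mem, gam8] at h0 h1 h2
    refine ⟨?_, ?_, ?_⟩ <;> simp [Iv.mem, N8] <;> constructor <;> linarith [h0.1, h0.2, h1.1, h1.2, h2.1, h2.2]
  · unfold BddL; decide
  · unfold BddL; decide
  · simp only [WS, reg_cons, mem_union, mem_bx]; norm_num [Iv.mem]
  · simp only [WS, reg_cons, mem_union, mem_bx]; norm_num [Iv.mem]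
  · simp only [RT, reg_cons, mem_union, mem_bx]; norm_num [Iv.mem]
  · simp only [RT, reg_cons, mem_union, mem_bx]; norm_num [Iv.mem]
  · rintro c ⟨h0, h1, h2⟩
    apply dist_mirror
    rw [Iv.mem_single h1, Iv.mem_single h2]
    norm_num
  · rintro c ⟨h0, h1, h2⟩
    apply dist_mirror
    rw [Iv.mem_single h1, Iv.mem_single h2]
    norm_num
  · apply dist_ne; norm_num

theorem no_pair (h : Bad x y fA fB) {a b : E3} (hab : a ≠ b)
    (hseg : segment ℝ a b ⊆ closure (comp x) ∩ closure (comp y))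
    (hag : ∀ z ∈ segment ℝ a b, fA z = fB z) : False := by
  have hinf : (segment ℝ a b).Infinite := by
    rw [segment_eq_image_lineMap]
    exact (Set.Icc_infinite one_pos).image (AffineMap.lineMap_injective ℝ hab).injOn
  apply hinf
  have hone : ∀ g, NoPair x y fA fB g → (segment ℝ a b ∩ Bx.set g).Finite := by
    intro g hg
    apply Set.Subsingleton.finite
    rintro u ⟨hu, hug⟩ v ⟨hv, hvg⟩
    exact hg u hug v hvg (hseg hu).1 (hseg hu).2 (hseg hv).1 (hseg hv).2 (hag u hu) (hag v hv)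
  have hpt : ∀ p q r : ℕ, (Bx.set ((p, p, false), (q, q, false), (r, r, false))).Finite := by
    intro p q r
    apply Set.Subsingleton.finite
    rintro u ⟨h0, h1, h2⟩ v ⟨k0, k1, k2⟩
    ext i
    fin_cases i
    · exact (Iv.mem_single h0).trans (Iv.mem_single k0).symm
    · exact (Iv.mem_single h1).trans (Iv.mem_single k1).symm
    · exact (Iv.mem_single h2).trans (Iv.mem_single k2).symm
  have hV : (Reg regV).Finite := by
    unfold regV
    simp only [reg_cons]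
    refine (hpt _ _ _).union ((hpt _ _ _).union ((hpt _ _ _).union ((hpt _ _ _).union
      ((hpt _ _ _).union ((hpt _ _ _).union ((hpt _ _ _).union ((hpt _ _ _).union ?_)))))))
    have : Reg ([] : List Bx) = ∅ := by ext x; simp [Reg]
    rw [this]; exact Set.finite_empty
  have hsub : segment ℝ a b ⊆ ((segment ℝ a b ∩ Bx.set gam1) ∪ (segment ℝ a b ∩ Bx.set gam2) ∪
      (segment ℝ a b ∩ Bx.set gam3) ∪ (segment ℝ a b ∩ Bx.set gam4) ∪
      (segment ℝ a b ∩ Bx.set gam5) ∪ (segment ℝ a b ∩ Bx.set gam6) ∪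
      (segment ℝ a b ∩ Bx.set gam7) ∪ (segment ℝ a b ∩ Bx.set gam8)) ∪ Reg regV := by
    intro z hz
    rcases mem_gam h.hx h.hy (hseg hz).1 (hseg hz).2 with hz' | hz'
    · left
      simp only [regGam, reg_cons, mem_union] at hz'
      simp only [mem_union, mem_inter_iff, hz, true_and]
      have hnil : z ∉ Reg ([] : List Bx) := by simp [Reg]
      tauto
    · exact Or.inr hz'
  exact (((((((((hone _ (np1 h)).union (hone _ (np2 h))).union (hone _ (np3 h))).union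
    (hone _ (np4 h))).union (hone _ (np5 h))).union (hone _ (np6 h))).union
    (hone _ (np7 h))).union (hone _ (np8 h))).union hV).subset hsub

end pieces

theorem exists_step {α : Type*} {R : α → α → Prop} {P : α → Prop} {a b : α}
    (h : Relation.ReflTransGen R a b) (ha : P a) (hb : ¬ P b) : ∃ c d, R c d ∧ P c ∧ ¬ P d := by
  induction h with
  | refl => exact absurd ha hb
  | @tail c d _ h2 ih =>
    by_cases hc : P c
    · exact ⟨c, d, h2, hc, hb⟩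
    · exact ih hc

theorem no_unfolding : ¬ HasEdgeUnfolding (body occ) := by
  rintro ⟨place, hiso, hdis, hconn⟩
  -- a face of the tower and a face which is not a face of the tower
  have hp1 : (!₂[5/2, 6, 3] : E3) ∈ Reg WN := by
    simp only [WN, reg_cons, mem_union, mem_bx]; norm_num [Iv.mem]
  have hp2 : (!₂[1/2, 1/2, 1] : E3) ∈ Reg F1 := by
    simp only [F1, reg_cons, mem_union, mem_bx]; norm_num [Iv.mem]
  have hbW : BddL WN := by unfold BddL; decide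
  have hbG : BddL F1 := by unfold BddL; decide
  have f1 := piece_flat piece1 hbW hbG (Or.inl hp1)
  have f2 := piece_flat piece1 hbW hbG (Or.inr hp2)
  have t1 : (!₂[5/2, 6, 3] : E3) ∈ T := by
    rw [T, boxT, mem_bx]; norm_num [Iv.mem]
  have t2 : (!₂[1/2, 1/2, 1] : E3) ∉ T := by
    rw [T, boxT, mem_bx]; norm_num [Iv.mem]
  have hc1 : comp !₂[5/2, 6, 3] ⊆ T := by
    rcases comp_dichotomy !₂[5/2, 6, 3] with h | h
    · exact h
    · exact absurd t1 (Set.disjoint_left.1 h (mem_connectedComponentIn f1))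
  obtain ⟨A, B, ⟨⟨x, hx, rfl⟩, ⟨y, hy, rfl⟩, a, b, hab, hseg, hag⟩, hA, hB⟩ :=
    exists_step (P := fun A => A ⊆ T) (hconn _ _ ⟨_, f1, rfl⟩ ⟨_, f2, rfl⟩)
    (isClosed_T.closure_subset_iff.2 hc1)
    (fun h => t2 (h (subset_closure (mem_connectedComponentIn f2))))
  have hA' : comp x ⊆ T := subset_closure.trans hA
  have hB' : Disjoint (comp y) T := by
    rcases comp_dichotomy y with h | h
    · exact absurd (isClosed_T.closure_subset_iff.2 h) hB
    · exact h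
  have hne : closure (comp x) ≠ closure (comp y) := fun h => hB (h ▸ hA)
  exact no_pair (x := x) (y := y) ⟨hA', hB', hiso _ ⟨x, hx, rfl⟩, hiso _ ⟨y, hy, rfl⟩,
    hdis _ _ ⟨x, hx, rfl⟩ ⟨y, hy, rfl⟩ hne⟩ hab hseg hag

end Pool.Agent.H248R2.Ortho
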