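import Pool.Agent.H248R2.OrthoDefs

set_option autoImplicit false

open Set Metric Topology Filter

namespace Pool.Agent.H248R2.Ortho

/-- The index of the unit interval adjacent to `t` on the right (`true`) or on the left. -/
noncomputable def idx (t : ℝ) (s : Bool) : ℤ := if s then ⌊t⌋ else ⌈t⌉ - 1

theorem idx_cases (t : ℝ) : idx t true = idx t false ∧ (idx t true : ℝ) < t ∧ t < idx t true + 1 ∨
    idx t true = idx t false + 1 ∧ t = idx t true := by
  simp only [idx, if_true, Bool.false_eq_true, if_false]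
  by_cases h : t = ⌊t⌋
  · right
    refine ⟨?_, h⟩
    have : ⌈t⌉ = ⌊t⌋ := by rw [h]; simp
    omega
  · left
    have h1 := Int.floor_le t
    have h2 := Int.lt_floor_add_one t
    have h3 : (⌊t⌋ : ℝ) < t := lt_of_le_of_ne h1 (fun e => h e.symm)
    refine ⟨?_, h3, h2⟩
    have : ⌈t⌉ = ⌊t⌋ + 1 := by
      rw [Int.ceil_eq_iff]
      push_cast
      constructor <;> linarith
    omega

theorem idx_near (t : ℝ) : ∃ ε > 0, ∀ u : ℝ, |u - t| < ε → ∀ s,
    (t < u → idx u s = idx t true) ∧ (u < t → idx u s = idx t false) := by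
  have h1 := Int.lt_floor_add_one t
  have h2 : (⌈t⌉ : ℝ) - 1 < t := by have := Int.ceil_lt_add_one t; linarith
  refine ⟨min (⌊t⌋ + 1 - t) (t - (⌈t⌉ - 1)), lt_min (by linarith) (by linarith), ?_⟩
  intro u hu s
  rw [abs_lt] at hu
  have hm1 := min_le_left ((⌊t⌋ : ℝ) + 1 - t) (t - (⌈t⌉ - 1))
  have hm2 := min_le_right ((⌊t⌋ : ℝ) + 1 - t) (t - (⌈t⌉ - 1))
  have h3 := Int.floor_le t
  have h4 := Int.le_ceil t
  constructor
  · intro h
    have e1 : ⌊u⌋ = ⌊t⌋ := by
      rw [Int.floor_eq_iff]; constructor <;> linarith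
    have e2 : ⌈u⌉ = ⌊t⌋ + 1 := by
      rw [Int.ceil_eq_iff]; push_cast; constructor <;> linarith
    cases s <;> simp [idx, e1, e2]
  · intro h
    have e1 : ⌊u⌋ = ⌈t⌉ - 1 := by
      rw [Int.floor_eq_iff]; push_cast; constructor <;> linarith
    have e2 : ⌈u⌉ = ⌈t⌉ := by
      rw [Int.ceil_eq_iff]; constructor <;> linarith
    cases s <;> simp [idx, e1, e2]

/-- The lattice cell adjacent to `x` in the direction of the octant `s`. -/
noncomputable def pat (x : E3) (s : Fin 3 → Bool) : Fin 3 → ℤ := fun i => idx (x i) (s i)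

/-- The union of the closed unit cubes with lower corners satisfying `occ`. -/
def body (occ : (Fin 3 → ℤ) → Prop) : Set E3 := {x | ∃ s, occ (pat x s)}

/-- The octant as seen from `x` which corresponds to the octant `s` at the nearby point `y`. -/
noncomputable def adj (x y : E3) (s : Fin 3 → Bool) : Fin 3 → Bool := fun i =>
  if x i < y i then true else if y i < x i then false else s i

theorem pat_near (x : E3) : ∃ ε > 0, ∀ y : E3, (∀ i, |y i - x i| < ε) → ∀ s,
    pat y s = pat x (adj x y s) := by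
  choose e he h using fun i => idx_near (x i)
  obtain ⟨ε, hε, hle⟩ : ∃ ε > 0, ∀ i, ε ≤ e i := by
    refine ⟨min (e 0) (min (e 1) (e 2)), lt_min (he 0) (lt_min (he 1) (he 2)), ?_⟩
    intro i
    fin_cases i
    · exact min_le_left _ _
    · exact (min_le_right _ _).trans (min_le_left _ _)
    · exact (min_le_right _ _).trans (min_le_right _ _)
  refine ⟨ε, hε, fun y hy s => ?_⟩
  funext i
  have hi := h i (y i) (lt_of_lt_of_le (hy i) (hle i)) (s i)
  simp only [pat, adj]
  split_ifs with h1 h2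
  · exact hi.1 h1
  · exact hi.2 h2
  · rw [le_antisymm (not_lt.1 h1) (not_lt.1 h2)]

/-- The diagonal direction of an octant. -/
noncomputable def dir (s : Fin 3 → Bool) : E3 := WithLp.toLp 2 (fun i => if s i then 1 else -1)

theorem dir_apply (s : Fin 3 → Bool) (i : Fin 3) : dir s i = if s i then 1 else -1 := rfl

theorem isOpen_cube (x : E3) (ε : ℝ) : IsOpen {y : E3 | ∀ i, |y i - x i| < ε} := by
  have : {y : E3 | ∀ i, |y i - x i| < ε} = ⋂ i, {y : E3 | |y i - x i| < ε} := by
    ext y; simp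
  rw [this]
  apply isOpen_iInter_of_finite
  intro i
  exact isOpen_lt (by fun_prop) continuous_const

theorem cube_mem_nhds (x : E3) {ε : ℝ} (hε : 0 < ε) : {y : E3 | ∀ i, |y i - x i| < ε} ∈ 𝓝 x :=
  (isOpen_cube x ε).mem_nhds (by intro i; simpa using hε)

theorem abs_coord_le (x y : E3) (i : Fin 3) : |y i - x i| ≤ dist y x := by
  have := EuclideanSpace.norm_eq (y - x)
  rw [dist_eq_norm, this]
  apply Real.le_sqrt_of_sq_le
  rw [Fin.sum_univ_three]
  simp only [PiLp.sub_apply, Real.norm_eq_abs, sq_abs]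
  fin_cases i <;> simp <;> nlinarith [sq_nonneg (y 0 - x 0), sq_nonneg (y 1 - x 1), sq_nonneg (y 2 - x 2)]

variable {occ : (Fin 3 → ℤ) → Prop}

theorem adj_dir (x : E3) (s s' : Fin 3 → Bool) {t : ℝ} (ht : 0 < t) :
    adj x (x + t • dir s) s' = s := by
  funext i
  simp only [adj, PiLp.add_apply, PiLp.smul_apply, dir_apply, smul_eq_mul]
  cases h : s i
  · simp [ht, ht.le]
  · simp [ht]

theorem eventually_pat (x : E3) (s : Fin 3 → Bool) :
    ∀ᶠ t in 𝓝[>] (0 : ℝ), ∀ s', pat (x + t • dir s) s' = pat x s := by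
  obtain ⟨ε, hε, h⟩ := pat_near x
  have hc : Tendsto (fun t : ℝ => x + t • dir s) (𝓝[>] (0 : ℝ)) (𝓝 x) := by
    have : Tendsto (fun t : ℝ => x + t • dir s) (𝓝 (0 : ℝ)) (𝓝 (x + (0 : ℝ) • dir s)) :=
      Continuous.tendsto (by fun_prop) 0
    rw [zero_smul, add_zero] at this
    exact this.mono_left nhdsWithin_le_nhds
  filter_upwards [hc (cube_mem_nhds x hε), self_mem_nhdsWithin] with t ht ht0 s'
  rw [h _ ht s', adj_dir x s s' ht0]

theorem tendsto_dir (x : E3) (s : Fin 3 → Bool) :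
    Tendsto (fun t : ℝ => x + t • dir s) (𝓝[>] (0 : ℝ)) (𝓝 x) := by
  have : Tendsto (fun t : ℝ => x + t • dir s) (𝓝 (0 : ℝ)) (𝓝 (x + (0 : ℝ) • dir s)) :=
    Continuous.tendsto (by fun_prop) 0
  rw [zero_smul, add_zero] at this
  exact this.mono_left nhdsWithin_le_nhds

theorem mem_interior_body (x : E3) : x ∈ interior (body occ) ↔ ∀ s, occ (pat x s) := by
  constructor
  · intro hx s
    have h1 : ∀ᶠ t in 𝓝[>] (0 : ℝ), x + t • dir s ∈ body occ :=
      (tendsto_dir x s) (mem_interior_iff_mem_nhds.1 hx)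
    obtain ⟨t, ⟨s', hs'⟩, ht⟩ := (h1.and (eventually_pat x s)).exists
    rw [ht s'] at hs'
    exact hs'
  · intro hx
    obtain ⟨ε, hε, h⟩ := pat_near x
    rw [mem_interior_iff_mem_nhds]
    filter_upwards [cube_mem_nhds x hε] with y hy
    exact ⟨fun _ => true, by rw [h y hy]; exact hx _⟩

theorem isClosed_body : IsClosed (body occ) := by
  rw [← isOpen_compl_iff, isOpen_iff_mem_nhds]
  intro x hx
  obtain ⟨ε, hε, h⟩ := pat_near x
  filter_upwards [cube_mem_nhds x hε] with y hy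
  rintro ⟨s, hs⟩
  rw [h y hy] at hs
  exact hx ⟨_, hs⟩

theorem mem_frontier_body (x : E3) :
    x ∈ frontier (body occ) ↔ (∃ s, occ (pat x s)) ∧ ∃ s, ¬ occ (pat x s) := by
  rw [isClosed_body.frontier_eq, Set.mem_sdiff, mem_interior_body]
  push Not
  rfl

/-- The pattern at `x` is that of a half space orthogonal to the axis `i`. -/
def PF (occ : (Fin 3 → ℤ) → Prop) (x : E3) (i : Fin 3) : Prop :=
  ∃ b : Bool, ∀ s : Fin 3 → Bool, occ (pat x s) ↔ s i = b

theorem mem_flatPoints_of_PF {x : E3} {i : Fin 3} (h : PF occ x i) :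
    x ∈ flatPoints (body occ) := by
  obtain ⟨b, hb⟩ := h
  obtain ⟨ε, hε, hn⟩ := pat_near x
  refine ⟨(mem_frontier_body x).2 ⟨⟨fun _ => b, (hb _).2 rfl⟩, ⟨fun _ => !b, fun h => by
    have := (hb _).1 h; simp at this⟩⟩, i, ε, hε, fun y hy => ?_⟩
  have hy' : ∀ j, |y j - x j| < ε := fun j =>
    lt_of_le_of_lt (abs_coord_le x y j) (mem_ball.1 hy)
  rw [mem_frontier_body]
  have key : ∀ s, occ (pat y s) ↔ adj x y s i = b := fun s => by rw [hn y hy' s]; exact hb _
  constructor
  · rintro ⟨⟨s, hs⟩, s', hs'⟩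
    rw [key] at hs hs'
    by_contra hne
    rcases lt_or_gt_of_ne hne with h1 | h1
    · have e : ∀ s, adj x y s i = false := fun s => by simp [adj, h1, not_lt.2 h1.le]
      rw [e] at hs hs'
      exact hs' hs
    · have e : ∀ s, adj x y s i = true := fun s => by simp [adj, h1]
      rw [e] at hs hs'
      exact hs' hs
  · intro he
    refine ⟨⟨fun _ => b, ?_⟩, fun _ => !b, ?_⟩
    · rw [key]; simp [adj, he]
    · rw [key]; simp [adj, he]

theorem PF_of_mem_flatPoints {x : E3} (h : x ∈ flatPoints (body occ)) : ∃ i, PF occ x i := by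
  obtain ⟨hf, i, ε, hε, hball⟩ := h
  refine ⟨i, ?_⟩
  obtain ⟨ε', hε', hn⟩ := pat_near x
  -- patterns which agree at `i` are equivalent
  have key : ∀ s s' : Fin 3 → Bool, s i = s' i → occ (pat x s) → occ (pat x s') := by
    intro s s' hi hs
    -- the point with coordinates moved only where `s` and `s'` agree
    let v : E3 := WithLp.toLp 2 (fun j => if s j = s' j then (if s j then 1 else -1) else 0)
    have hv : ∀ j, v j = if s j = s' j then (if s j then (1 : ℝ) else -1) else 0 := fun j => rfl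
    have hc : Tendsto (fun t : ℝ => x + t • v) (𝓝[>] (0 : ℝ)) (𝓝 x) := by
      have : Tendsto (fun t : ℝ => x + t • v) (𝓝 (0 : ℝ)) (𝓝 (x + (0 : ℝ) • v)) :=
        Continuous.tendsto (by fun_prop) 0
      rw [zero_smul, add_zero] at this
      exact this.mono_left nhdsWithin_le_nhds
    have hpos : ∀ᶠ t in 𝓝[>] (0 : ℝ), t ∈ Ioi (0 : ℝ) := self_mem_nhdsWithin
    have hc1 : ∀ᶠ t in 𝓝[>] (0 : ℝ), x + t • v ∈ {y : E3 | ∀ i, |y i - x i| < ε'} :=
      hc (cube_mem_nhds x hε')
    have hc2 : ∀ᶠ t in 𝓝[>] (0 : ℝ), x + t • v ∈ ball x ε := hc (ball_mem_nhds x hε)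
    obtain ⟨t, ht0, ht1, ht2⟩ := (hpos.and (hc1.and hc2)).exists
    have ht0' : (0 : ℝ) < t := ht0
    set y := x + t • v with hy
    have hyi : y i ≠ x i := by
      simp only [hy, PiLp.add_apply, PiLp.smul_apply, hv, hi, if_true, smul_eq_mul]
      split_ifs <;> simp [ht0'.ne']
    have hnf : y ∉ frontier (body occ) := fun hf' => hyi ((hball y ht2).1 hf')
    rw [mem_frontier_body] at hnf
    have a1 : ∀ s'' : Fin 3 → Bool, (∀ j, s j = s' j → s'' j = s j) → pat y s'' = pat x s'' := by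
      intro s'' h''
      rw [hn y ht1 s'']
      congr 1
      funext j
      simp only [adj, hy, PiLp.add_apply, PiLp.smul_apply, hv, smul_eq_mul]
      by_cases hj : s j = s' j
      · rw [h'' j hj]
        cases hsj : s j
        · simp [← hj, hsj, ht0', ht0'.le]
        · simp [← hj, hsj, ht0']
      · simp [hj]
    by_contra hs'
    apply hnf
    refine ⟨⟨s, ?_⟩, s', ?_⟩
    · rw [a1 s (fun _ _ => rfl)]; exact hs
    · rw [a1 s' (fun j hj => hj.symm)]; exact hs'
  rw [mem_frontier_body] at hf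
  obtain ⟨⟨s, hs⟩, s', hs'⟩ := hf
  refine ⟨s i, fun s'' => ⟨fun h => ?_, fun h => key s s'' h.symm hs⟩⟩
  by_contra hne
  have h1 : s'' i = s' i := by
    have h2 : s i ≠ s' i := fun e => hs' (key s s' e hs)
    revert hne h2
    cases s'' i <;> cases s i <;> cases s' i <;> simp
  exact hs' (key s'' s' h1 h)

end Pool.Agent.H248R2.Ortho
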