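import Pool.Agent.H248R2.OrthoBody

set_option autoImplicit false

open Set Metric Topology Filter

namespace Pool.Agent.H248R2.Ortho

/-- open boxes -/
def obox {d : ℕ} (lo hi : Fin d → ℝ) : Set (EuclideanSpace ℝ (Fin d)) :=
  {x | ∀ i, lo i < x i ∧ x i < hi i}

variable {d : ℕ}

theorem isOpen_obox (lo hi : Fin d → ℝ) : IsOpen (obox lo hi) := by
  have : obox lo hi = ⋂ i, {x : EuclideanSpace ℝ (Fin d) | lo i < x i ∧ x i < hi i} := by
    ext y; simp [obox]
  rw [this]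
  apply isOpen_iInter_of_finite
  intro i
  have hc : Continuous fun x : EuclideanSpace ℝ (Fin d) => x i := by fun_prop
  exact (isOpen_lt continuous_const hc).inter (isOpen_lt hc continuous_const)

theorem convex_obox (lo hi : Fin d → ℝ) : Convex ℝ (obox lo hi) := by
  intro x hx y hy a b ha hb hab i
  have h1 := hx i
  have h2 := hy i
  simp only [PiLp.add_apply, PiLp.smul_apply, smul_eq_mul]
  have hb' : b = 1 - a := by linarith
  subst hb'
  rcases ha.eq_or_lt with h | h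
  · subst h
    constructor <;> linarith
  · constructor <;> nlinarith

theorem obox_subset_box (lo hi : Fin d → ℝ) : obox lo hi ⊆ box lo hi :=
  fun _ hx i => ⟨(hx i).1.le, (hx i).2.le⟩

theorem box_subset_closure_obox (lo hi : Fin d → ℝ) (h : ∀ i, lo i < hi i) :
    box lo hi ⊆ closure (obox lo hi) := by
  intro x hx
  let c : EuclideanSpace ℝ (Fin d) := WithLp.toLp 2 (fun i => (lo i + hi i) / 2)
  have hc : ∀ i, c i = (lo i + hi i) / 2 := fun i => rfl
  have hT : Tendsto (fun t : ℝ => x + t • (c - x)) (𝓝[>] (0 : ℝ)) (𝓝 x) := by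
    have : Tendsto (fun t : ℝ => x + t • (c - x)) (𝓝 (0 : ℝ)) (𝓝 (x + (0 : ℝ) • (c - x))) :=
      Continuous.tendsto (by fun_prop) 0
    rw [zero_smul, add_zero] at this
    exact this.mono_left nhdsWithin_le_nhds
  apply mem_closure_of_tendsto hT
  have hlt : ∀ᶠ t in 𝓝[>] (0 : ℝ), t < 1 := by
    apply mem_nhdsWithin_of_mem_nhds
    exact Iio_mem_nhds one_pos
  filter_upwards [hlt, self_mem_nhdsWithin] with t ht1 ht0 i
  have ht0' : (0 : ℝ) < t := ht0
  have h1 := hx i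
  have h2 := h i
  simp only [PiLp.add_apply, PiLp.smul_apply, PiLp.sub_apply, smul_eq_mul, hc]
  constructor <;> nlinarith

theorem interior_connected {n : ℕ} (lo hi : Fin (n + 1) → Fin d → ℝ)
    (h : ∀ k i, lo k i < hi k i)
    (hl : ∀ k i, max (lo k i) (lo 0 i) < min (hi k i) (hi 0 i)) :
    IsConnected (interior (⋃ k, box (lo k) (hi k))) := by
  have hO : IsConnected (⋃ k, obox (lo k) (hi k)) := by
    have hne : ∀ k, (obox (lo k) (hi k) ∩ obox (lo 0) (hi 0)).Nonempty := by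
      intro k
      refine ⟨WithLp.toLp 2 (fun i => (max (lo k i) (lo 0 i) + min (hi k i) (hi 0 i)) / 2),
        fun i => ?_, fun i => ?_⟩
      · have h1 := hl k i
        have h2 := le_max_left (lo k i) (lo 0 i)
        have h3 := min_le_left (hi k i) (hi 0 i)
        show lo k i < (max (lo k i) (lo 0 i) + min (hi k i) (hi 0 i)) / 2 ∧
          (max (lo k i) (lo 0 i) + min (hi k i) (hi 0 i)) / 2 < hi k i
        constructor <;> linarith
      · have h1 := hl k i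
        have h2 := le_max_right (lo k i) (lo 0 i)
        have h3 := min_le_right (hi k i) (hi 0 i)
        show lo 0 i < (max (lo k i) (lo 0 i) + min (hi k i) (hi 0 i)) / 2 ∧
          (max (lo k i) (lo 0 i) + min (hi k i) (hi 0 i)) / 2 < hi 0 i
        constructor <;> linarith
    apply IsConnected.iUnion_of_reflTransGen
    · intro k
      exact ⟨(hne k).mono inter_subset_left, (convex_obox _ _).isPreconnected⟩
    · intro i j
      have e1 : (obox (lo 0) (hi 0) ∩ obox (lo j) (hi j)).Nonempty := by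
        rw [inter_comm]; exact hne j
      exact Relation.ReflTransGen.head (hne i) (Relation.ReflTransGen.single e1)
  have h1 : (⋃ k, obox (lo k) (hi k)) ⊆ interior (⋃ k, box (lo k) (hi k)) :=
    interior_maximal (iUnion_mono fun k => obox_subset_box _ _)
      (isOpen_iUnion fun k => isOpen_obox _ _)
  have h2 : interior (⋃ k, box (lo k) (hi k)) ⊆ closure (⋃ k, obox (lo k) (hi k)) := by
    refine interior_subset.trans (iUnion_subset fun k => ?_)
    exact (box_subset_closure_obox _ _ (h k)).trans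
      (closure_mono (subset_iUnion (fun k => obox (lo k) (hi k)) k))
  exact ⟨hO.nonempty.mono h1, hO.isPreconnected.subset_closure h1 h2⟩

def loS : Fin 4 → Fin 3 → ℝ := ![![0, 0, 0], ![1, 0, 0], ![2, 0, 0], ![1, 3, 0]]
def hiS : Fin 4 → Fin 3 → ℝ := ![![5, 7, 1], ![4, 1, 4], ![3, 4, 4], ![4, 6, 5]]

theorem S_boxes : S = ⋃ k, box (loS k) (hiS k) := by
  ext x
  simp only [S, mem_iUnion, mem_ofPred_eq, box, loS, hiS, Fin.exists_fin_succ, Fin.forall_fin_succ]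
  simp

theorem polyhedron : IsOrthogonalPolyhedron S where
  boxes := ⟨4, loS, hiS, by
    intro k i
    fin_cases k <;> fin_cases i <;> norm_num [loS, hiS], S_boxes⟩
  connected := by
    rw [S_boxes]
    apply interior_connected (n := 3)
    · intro k i
      fin_cases k <;> fin_cases i <;> norm_num [loS, hiS]
    · intro k i
      fin_cases k <;> fin_cases i <;> norm_num [loS, hiS]
  surface := by
    intro x hx
    rw [S_eq] at hx ⊢
    obtain ⟨σ, hσ⟩ := exists_DS hx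
    exact surface_of_DS hx hσ

/-! ### slices -/

theorem mem_slice (c : ℝ) (p : E2) : p ∈ slice S c ↔
    ((0 ≤ p 0 ∧ p 0 ≤ 5) ∧ (0 ≤ p 1 ∧ p 1 ≤ 7) ∧ (0 ≤ c ∧ c ≤ 1)) ∨
    ((1 ≤ p 0 ∧ p 0 ≤ 4) ∧ (0 ≤ p 1 ∧ p 1 ≤ 1) ∧ (0 ≤ c ∧ c ≤ 4)) ∨
    ((2 ≤ p 0 ∧ p 0 ≤ 3) ∧ (0 ≤ p 1 ∧ p 1 ≤ 4) ∧ (0 ≤ c ∧ c ≤ 4)) ∨
    ((1 ≤ p 0 ∧ p 0 ≤ 4) ∧ (3 ≤ p 1 ∧ p 1 ≤ 6) ∧ (0 ≤ c ∧ c ≤ 5)) := Iff.rfl

/-- open half plane like sets in the plane -/
def hb (a b c d : ℝ) : Set E2 := {p | a < p 0 ∧ p 0 < b ∧ c < p 1 ∧ p 1 < d}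

theorem preconn_of_lin (f : E2 → ℝ) (hf : ∀ x y : E2, ∀ a b : ℝ, 0 ≤ a → 0 ≤ b → a + b = 1 →
    f (a • x + b • y) = a * f x + b * f y) : Convex ℝ {p : E2 | 0 < f p} := by
  intro x hx y hy a b ha hb hab
  have h1 : 0 < f x := hx
  have h2 : 0 < f y := hy
  show 0 < f (a • x + b • y)
  rw [hf x y a b ha hb hab]
  have hb' : b = 1 - a := by linarith
  subst hb'
  rcases ha.eq_or_lt with h | h
  · subst h; linarith
  · nlinarith

theorem cL (t : ℝ) : Convex ℝ {p : E2 | p 0 < t} := by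
  have := preconn_of_lin (fun p => t - p 0) (by
    intro x y a b _ _ hab
    simp only [PiLp.add_apply, PiLp.smul_apply, smul_eq_mul]
    have hb' : b = 1 - a := by linarith
    subst hb'; ring)
  simpa only [sub_pos] using this

theorem cR (t : ℝ) : Convex ℝ {p : E2 | t < p 0} := by
  have := preconn_of_lin (fun p => p 0 - t) (by
    intro x y a b _ _ hab
    simp only [PiLp.add_apply, PiLp.smul_apply, smul_eq_mul]
    have hb' : b = 1 - a := by linarith
    subst hb'; ring)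
  simpa only [sub_pos] using this

theorem cB (t : ℝ) : Convex ℝ {p : E2 | p 1 < t} := by
  have := preconn_of_lin (fun p => t - p 1) (by
    intro x y a b _ _ hab
    simp only [PiLp.add_apply, PiLp.smul_apply, smul_eq_mul]
    have hb' : b = 1 - a := by linarith
    subst hb'; ring)
  simpa only [sub_pos] using this

theorem cT (t : ℝ) : Convex ℝ {p : E2 | t < p 1} := by
  have := preconn_of_lin (fun p => p 1 - t) (by
    intro x y a b _ _ hab
    simp only [PiLp.add_apply, PiLp.smul_apply, smul_eq_mul]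
    have hb' : b = 1 - a := by linarith
    subst hb'; ring)
  simpa only [sub_pos] using this

/-- the complement of a rectangle -/
def outer (a b c d : ℝ) : Set E2 :=
  (({p : E2 | p 0 < a} ∪ {p : E2 | d < p 1}) ∪ {p : E2 | b < p 0}) ∪ {p : E2 | p 1 < c}

theorem outer_preconnected (a b c d : ℝ) : IsPreconnected (outer a b c d) := by
  unfold outer
  refine IsPreconnected.union !₂[b + 1, c - 1] ?_ ?_ (IsPreconnected.union !₂[b + 1, d + 1] ?_ ?_
    (IsPreconnected.union !₂[a - 1, d + 1] ?_ ?_ ?_ ?_) ?_) ?_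
  · exact Or.inr (show b < b + 1 by linarith)
  · exact (show c - 1 < c by linarith)
  · exact Or.inr (show d < d + 1 by linarith)
  · exact (show b < b + 1 by linarith)
  · exact (show a - 1 < a by linarith)
  · exact (show d < d + 1 by linarith)
  · exact (cL _).isPreconnected
  · exact (cT _).isPreconnected
  · exact (cR _).isPreconnected
  · exact (cB _).isPreconnected

/-- the rectangle -/
def rect (a b c d : ℝ) : Set E2 := box ![a, c] ![b, d]

theorem mem_rect (a b c d : ℝ) (p : E2) :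
    p ∈ rect a b c d ↔ (a ≤ p 0 ∧ p 0 ≤ b) ∧ (c ≤ p 1 ∧ p 1 ≤ d) := by
  simp [rect, box, Fin.forall_fin_two]

theorem rect_compl (a b c d : ℝ) : (rect a b c d)ᶜ = outer a b c d := by
  ext p
  rw [mem_compl_iff, mem_rect]
  simp only [outer, mem_union, mem_ofPred_eq, not_and_or, not_le]
  tauto

theorem rect_polygon (a b c d : ℝ) (h1 : a < b) (h2 : c < d) :
    IsOrthogonalPolygon (rect a b c d) := by
  have e : rect a b c d = ⋃ k : Fin 1, box ((fun _ => ![a, c] : Fin 1 → Fin 2 → ℝ) k)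
      ((fun _ => ![b, d] : Fin 1 → Fin 2 → ℝ) k) := by
    rw [iUnion_const]; rfl
  refine ⟨⟨1, fun _ => ![a, c], fun _ => ![b, d], ?_, e⟩, ?_, ?_⟩
  · intro k i
    fin_cases i
    · exact h1
    · exact h2
  · rw [e]
    apply interior_connected (n := 0)
    · intro k i
      fin_cases i
      · exact h1
      · exact h2
    · intro k i
      fin_cases i
      · simpa using h1
      · simpa using h2
  · rw [rect_compl]
    exact ⟨⟨!₂[a - 1, 0], Or.inl (Or.inl (Or.inl (show a - 1 < a by linarith)))⟩,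
      outer_preconnected _ _ _ _⟩

/-- the H-shaped slice -/
def loQ : Fin 3 → Fin 2 → ℝ := ![![2, 0], ![1, 0], ![1, 3]]
def hiQ : Fin 3 → Fin 2 → ℝ := ![![3, 4], ![4, 1], ![4, 6]]

def Q : Set E2 := ⋃ k, box (loQ k) (hiQ k)

theorem mem_Q (p : E2) : p ∈ Q ↔ ((2 ≤ p 0 ∧ p 0 ≤ 3) ∧ (0 ≤ p 1 ∧ p 1 ≤ 4)) ∨
    ((1 ≤ p 0 ∧ p 0 ≤ 4) ∧ (0 ≤ p 1 ∧ p 1 ≤ 1)) ∨
    ((1 ≤ p 0 ∧ p 0 ≤ 4) ∧ (3 ≤ p 1 ∧ p 1 ≤ 6)) := by
  simp [Q, box, loQ, hiQ, Fin.exists_fin_succ, Fin.forall_fin_two]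

theorem Q_compl : Qᶜ = (outer 1 4 0 6 ∪ ({p : E2 | p 0 < 2} ∩ ({p : E2 | 1 < p 1} ∩
    {p : E2 | p 1 < 3}))) ∪ ({p : E2 | 3 < p 0} ∩ ({p : E2 | 1 < p 1} ∩ {p : E2 | p 1 < 3})) := by
  ext p
  rw [mem_compl_iff, mem_Q]
  simp only [outer, mem_union, mem_inter_iff, mem_ofPred_eq]
  constructor
  · intro h
    by_contra hc
    apply h
    simp only [not_or, not_and, not_lt] at hc
    obtain ⟨⟨⟨⟨⟨h1, h2⟩, h3⟩, h4⟩, h5⟩, h6⟩ := hc
    by_cases k1 : p 1 ≤ 1
    · right; left; exact ⟨⟨h1, h3⟩, h4, k1⟩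
    · by_cases k2 : 3 ≤ p 1
      · right; right; exact ⟨⟨h1, h3⟩, k2, h2⟩
      · push Not at k1 k2
        left
        refine ⟨⟨?_, ?_⟩, h4, by linarith⟩
        · by_contra h7
          push Not at h7
          exact absurd (h5 h7 k1) (by linarith)
        · by_contra h7
          push Not at h7
          exact absurd (h6 h7 k1) (by linarith)
  · rintro (((((h | h) | h) | h) | ⟨h1, h2, h3⟩) | ⟨h1, h2, h3⟩) <;> rintro (⟨⟨a1, a2⟩, a3, a4⟩ |
      ⟨⟨a1, a2⟩, a3, a4⟩ | ⟨⟨a1, a2⟩, a3, a4⟩) <;> linarith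

theorem Q_polygon : IsOrthogonalPolygon Q := by
  refine ⟨⟨3, loQ, hiQ, ?_, rfl⟩, ?_, ?_⟩
  · intro k i
    fin_cases k <;> fin_cases i <;> norm_num [loQ, hiQ]
  · apply interior_connected (n := 2)
    · intro k i
      fin_cases k <;> fin_cases i <;> norm_num [loQ, hiQ]
    · intro k i
      fin_cases k <;> fin_cases i <;> norm_num [loQ, hiQ]
  · rw [Q_compl]
    refine ⟨⟨!₂[0, 0], Or.inl (Or.inl (Or.inl (Or.inl (Or.inl (show (0 : ℝ) < 1 by
      norm_num)))))⟩, ?_⟩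
    refine IsPreconnected.union !₂[5, 2] ?_ ?_ (IsPreconnected.union !₂[0, 2] ?_ ?_
      (outer_preconnected _ _ _ _) ?_) ?_
    · exact Or.inl (Or.inl (Or.inr (show (4 : ℝ) < 5 by norm_num)))
    · exact ⟨show (3 : ℝ) < 5 by norm_num, show (1 : ℝ) < 2 by norm_num,
        show (2 : ℝ) < 3 by norm_num⟩
    · exact Or.inl (Or.inl (Or.inl (show (0 : ℝ) < 1 by norm_num)))
    · exact ⟨show (0 : ℝ) < 2 by norm_num, show (1 : ℝ) < 2 by norm_num,
        show (2 : ℝ) < 3 by norm_num⟩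
    · exact ((cL _).inter ((cT _).inter (cB _))).isPreconnected
    · exact ((cR _).inter ((cT _).inter (cB _))).isPreconnected

theorem orthostack : IsOrthostack S := by
  refine ⟨polyhedron, fun c => ?_⟩
  by_cases h0 : 0 ≤ c
  · by_cases h5 : c ≤ 5
    · right
      by_cases h1 : c ≤ 1
      · have e : slice S c = rect 0 5 0 7 := by
          ext p
          rw [mem_slice, mem_rect]
          constructor
          · rintro (⟨⟨a1, a2⟩, ⟨a3, a4⟩, a5, a6⟩ | ⟨⟨a1, a2⟩, ⟨a3, a4⟩, a5, a6⟩ |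
              ⟨⟨a1, a2⟩, ⟨a3, a4⟩, a5, a6⟩ | ⟨⟨a1, a2⟩, ⟨a3, a4⟩, a5, a6⟩) <;>
              refine ⟨⟨?_, ?_⟩, ?_, ?_⟩ <;> linarith
          · rintro ⟨⟨a1, a2⟩, a3, a4⟩
            exact Or.inl ⟨⟨a1, a2⟩, ⟨a3, a4⟩, h0, h1⟩
        rw [e]
        exact rect_polygon _ _ _ _ (by norm_num) (by norm_num)
      · push Not at h1
        by_cases h4 : c ≤ 4
        · have e : slice S c = Q := by
            ext p
            rw [mem_slice, mem_Q]
            constructor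
            · rintro (⟨⟨a1, a2⟩, ⟨a3, a4⟩, a5, a6⟩ | ⟨⟨a1, a2⟩, ⟨a3, a4⟩, a5, a6⟩ |
                ⟨⟨a1, a2⟩, ⟨a3, a4⟩, a5, a6⟩ | ⟨⟨a1, a2⟩, ⟨a3, a4⟩, a5, a6⟩)
              · linarith
              · exact Or.inr (Or.inl ⟨⟨a1, a2⟩, a3, a4⟩)
              · exact Or.inl ⟨⟨a1, a2⟩, a3, a4⟩
              · exact Or.inr (Or.inr ⟨⟨a1, a2⟩, a3, a4⟩)
            · rintro (⟨⟨a1, a2⟩, a3, a4⟩ | ⟨⟨a1, a2⟩, a3, a4⟩ | ⟨⟨a1, a2⟩, a3, a4⟩)
              · exact Or.inr (Or.inr (Or.inl ⟨⟨a1, a2⟩, ⟨a3, a4⟩, h0, h4⟩))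
              · exact Or.inr (Or.inl ⟨⟨a1, a2⟩, ⟨a3, a4⟩, h0, h4⟩)
              · exact Or.inr (Or.inr (Or.inr ⟨⟨a1, a2⟩, ⟨a3, a4⟩, h0, h5⟩))
          rw [e]
          exact Q_polygon
        · push Not at h4
          have e : slice S c = rect 1 4 3 6 := by
            ext p
            rw [mem_slice, mem_rect]
            constructor
            · rintro (⟨⟨a1, a2⟩, ⟨a3, a4⟩, a5, a6⟩ | ⟨⟨a1, a2⟩, ⟨a3, a4⟩, a5, a6⟩ |
                ⟨⟨a1, a2⟩, ⟨a3, a4⟩, a5, a6⟩ | ⟨⟨a1, a2⟩, ⟨a3, a4⟩, a5, a6⟩)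
              · linarith
              · linarith
              · linarith
              · exact ⟨⟨a1, a2⟩, a3, a4⟩
            · rintro ⟨⟨a1, a2⟩, a3, a4⟩
              exact Or.inr (Or.inr (Or.inr ⟨⟨a1, a2⟩, ⟨a3, a4⟩, h0, h5⟩))
          rw [e]
          exact rect_polygon _ _ _ _ (by norm_num) (by norm_num)
    · left
      ext p
      rw [mem_slice]
      simp only [mem_empty_iff_false, iff_false]
      rintro (⟨⟨a1, a2⟩, ⟨a3, a4⟩, a5, a6⟩ | ⟨⟨a1, a2⟩, ⟨a3, a4⟩, a5, a6⟩ |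
                ⟨⟨a1, a2⟩, ⟨a3, a4⟩, a5, a6⟩ | ⟨⟨a1, a2⟩, ⟨a3, a4⟩, a5, a6⟩) <;> linarith
  · left
    ext p
    rw [mem_slice]
    simp only [mem_empty_iff_false, iff_false]
    rintro (⟨⟨a1, a2⟩, ⟨a3, a4⟩, a5, a6⟩ | ⟨⟨a1, a2⟩, ⟨a3, a4⟩, a5, a6⟩ |
                ⟨⟨a1, a2⟩, ⟨a3, a4⟩, a5, a6⟩ | ⟨⟨a1, a2⟩, ⟨a3, a4⟩, a5, a6⟩) <;> linarith

end Pool.Agent.H248R2.Ortho
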