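import Pool.Agent.H248R2.OrthoLocal

set_option autoImplicit false

open Set Metric Topology Filter

namespace Pool.Agent.H248R2.Ortho

/-- The sign of the octant `σ` in the direction of the `i`-th axis. -/
def sg (σ : Fin 3 → Bool) (i : Fin 3) : ℝ := if σ i then 1 else -1

theorem sg_mul_self (σ : Fin 3 → Bool) (i : Fin 3) : sg σ i * sg σ i = 1 := by
  unfold sg; split_ifs <;> norm_num

/-- The coordinatewise order in which the octant `σ` is positive. -/
def Le (σ : Fin 3 → Bool) (w y : E3) : Prop := ∀ i, sg σ i * w i ≤ sg σ i * y i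

structure DownSet (σ : Fin 3 → Bool) (D : Set E3) : Prop where
  closed : IsClosed D
  down : ∀ y ∈ D, ∀ w, Le σ w y → w ∈ D
  nonempty : D.Nonempty
  proper : Dᶜ.Nonempty

/-- lift of a point of the plane -/
noncomputable def q0 (p : E2) : E3 := !₂[p 0, p 1, 0]

noncomputable def pr (σ : Fin 3 → Bool) (y : E3) : E2 :=
  !₂[y 0 - sg σ 0 * (sg σ 2 * y 2), y 1 - sg σ 1 * (sg σ 2 * y 2)]

theorem q0_0 (p : E2) : q0 p 0 = p 0 := rfl
theorem q0_1 (p : E2) : q0 p 1 = p 1 := rfl
theorem q0_2 (p : E2) : q0 p 2 = 0 := rfl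

theorem line_apply (σ : Fin 3 → Bool) (p : E2) (t : ℝ) (i : Fin 3) :
    (q0 p + t • dir σ) i = q0 p i + t * sg σ i := rfl

theorem pr_line (σ : Fin 3 → Bool) (p : E2) (t : ℝ) : pr σ (q0 p + t • dir σ) = p := by
  have h0 := sg_mul_self σ 0
  have h1 := sg_mul_self σ 1
  have h2 := sg_mul_self σ 2
  ext i
  fin_cases i
  · show (q0 p + t • dir σ) 0 - sg σ 0 * (sg σ 2 * (q0 p + t • dir σ) 2) = p 0
    rw [line_apply, line_apply, q0_0, q0_2]
    linear_combination (-sg σ 0 * t) * h2
  · show (q0 p + t • dir σ) 1 - sg σ 1 * (sg σ 2 * (q0 p + t • dir σ) 2) = p 1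
    rw [line_apply, line_apply, q0_1, q0_2]
    linear_combination (-sg σ 1 * t) * h2

theorem line_pr (σ : Fin 3 → Bool) (y : E3) : q0 (pr σ y) + (sg σ 2 * y 2) • dir σ = y := by
  have h2 := sg_mul_self σ 2
  ext i
  rw [line_apply]
  fin_cases i
  · show (y 0 - sg σ 0 * (sg σ 2 * y 2)) + (sg σ 2 * y 2) * sg σ 0 = y 0
    ring
  · show (y 1 - sg σ 1 * (sg σ 2 * y 2)) + (sg σ 2 * y 2) * sg σ 1 = y 1
    ring
  · show (0 : ℝ) + (sg σ 2 * y 2) * sg σ 2 = y 2
    linear_combination y 2 * h2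

variable {σ : Fin 3 → Bool} {D : Set E3}

theorem coord_le_dist (p p' : E2) (i : Fin 2) : |p i - p' i| ≤ dist p p' := by
  have := EuclideanSpace.norm_eq (p - p')
  rw [dist_eq_norm, this]
  apply Real.le_sqrt_of_sq_le
  rw [Fin.sum_univ_two]
  simp only [PiLp.sub_apply, Real.norm_eq_abs, sq_abs]
  fin_cases i <;> simp <;> nlinarith [sq_nonneg (p 0 - p' 0), sq_nonneg (p 1 - p' 1)]

theorem abs_sg (σ : Fin 3 → Bool) (i : Fin 3) : |sg σ i| = 1 := by
  unfold sg; split_ifs <;> norm_num

theorem line_le (p p' : E2) (t t' : ℝ) (h : t' + dist p p' ≤ t) :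
    Le σ (q0 p' + t' • dir σ) (q0 p + t • dir σ) := by
  intro i
  rw [line_apply, line_apply]
  have h1 := sg_mul_self σ i
  have key : ∀ u : ℝ, |u| ≤ dist p p' → -dist p p' ≤ sg σ i * u := by
    intro u hu
    have : |sg σ i * u| ≤ dist p p' := by rw [abs_mul, abs_sg, one_mul]; exact hu
    exact (abs_le.1 this).1
  have hd : (0 : ℝ) ≤ dist p p' := dist_nonneg
  have e : sg σ i * (q0 p i + t * sg σ i) - sg σ i * (q0 p' i + t' * sg σ i) =
      sg σ i * (q0 p i - q0 p' i) + (t - t') := by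
    linear_combination (t - t') * h1
  have : -dist p p' ≤ sg σ i * (q0 p i - q0 p' i) := by
    apply key
    fin_cases i
    · exact coord_le_dist p p' 0
    · exact coord_le_dist p p' 1
    · show |(0 : ℝ) - 0| ≤ dist p p'
      simpa using hd
  linarith

theorem bdd (hD : DownSet σ D) (p : E2) :
    {t : ℝ | q0 p + t • dir σ ∈ D}.Nonempty ∧ BddAbove {t : ℝ | q0 p + t • dir σ ∈ D} := by
  obtain ⟨y, hy⟩ := hD.nonempty
  obtain ⟨z, hz⟩ := hD.proper
  constructor
  · refine ⟨sg σ 2 * y 2 - dist (pr σ y) p, hD.down y hy _ ?_⟩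
    conv_rhs => rw [← line_pr σ y]
    apply line_le
    linarith
  · refine ⟨sg σ 2 * z 2 + dist p (pr σ z), fun t ht => ?_⟩
    by_contra hlt
    push Not at hlt
    apply hz
    refine hD.down _ ht _ ?_
    conv_lhs => rw [← line_pr σ z]
    apply line_le
    linarith

/-- the height of the surface over the plane -/
noncomputable def tau (σ : Fin 3 → Bool) (D : Set E3) (p : E2) : ℝ :=
  sSup {t : ℝ | q0 p + t • dir σ ∈ D}

noncomputable def gg (σ : Fin 3 → Bool) (D : Set E3) (p : E2) : E3 :=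
  q0 p + tau σ D p • dir σ

theorem gg_mem (hD : DownSet σ D) (p : E2) : gg σ D p ∈ D := by
  have hc : IsClosed {t : ℝ | q0 p + t • dir σ ∈ D} :=
    hD.closed.preimage (f := fun t : ℝ => q0 p + t • dir σ) (by fun_prop)
  exact hc.csSup_mem (bdd hD p).1 (bdd hD p).2

theorem le_tau (hD : DownSet σ D) (p : E2) {t : ℝ} (ht : q0 p + t • dir σ ∈ D) :
    t ≤ tau σ D p := le_csSup (bdd hD p).2 ht

theorem tau_lip (hD : DownSet σ D) (p p' : E2) : tau σ D p - dist p p' ≤ tau σ D p' := by
  apply le_tau hD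
  refine hD.down _ (gg_mem hD p) _ ?_
  apply line_le
  linarith

theorem continuous_tau (hD : DownSet σ D) : Continuous (tau σ D) := by
  have : LipschitzWith 1 (tau σ D) := by
    apply LipschitzWith.of_dist_le_mul
    intro p p'
    rw [Real.dist_eq, NNReal.coe_one, one_mul, abs_le]
    have h1 := tau_lip hD p p'
    have h2 := tau_lip hD p' p
    rw [dist_comm p' p] at h2
    constructor <;> linarith
  exact this.continuous

theorem continuous_q0 : Continuous q0 := by
  unfold q0
  fun_prop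

theorem continuous_gg (hD : DownSet σ D) : Continuous (gg σ D) := by
  unfold gg
  exact continuous_q0.add ((continuous_tau hD).smul continuous_const)

theorem continuous_pr : Continuous (pr σ) := by
  unfold pr
  fun_prop

theorem gg_mem_frontier (hD : DownSet σ D) (p : E2) : gg σ D p ∈ frontier D := by
  rw [hD.closed.frontier_eq]
  refine ⟨gg_mem hD p, fun hi => ?_⟩
  have h1 : ∀ᶠ t in 𝓝[>] (0 : ℝ), gg σ D p + t • dir σ ∈ D :=
    (tendsto_dir _ σ) (mem_interior_iff_mem_nhds.1 hi)
  have hpos : ∀ᶠ t in 𝓝[>] (0 : ℝ), t ∈ Ioi (0 : ℝ) := self_mem_nhdsWithin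
  obtain ⟨t, ht, ht0⟩ := (h1.and hpos).exists
  have ht0' : (0 : ℝ) < t := ht0
  have : gg σ D p + t • dir σ = q0 p + (tau σ D p + t) • dir σ := by
    unfold gg; rw [add_smul, add_assoc]
  rw [this] at ht
  have := le_tau hD p ht
  linarith

theorem gg_pr (hD : DownSet σ D) {y : E3} (hy : y ∈ frontier D) : gg σ D (pr σ y) = y := by
  have hyD : y ∈ D := hD.closed.frontier_subset hy
  have h1 : sg σ 2 * y 2 ≤ tau σ D (pr σ y) := by
    apply le_tau hD
    rw [line_pr]; exact hyD
  rcases h1.eq_or_lt with h | h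
  · unfold gg; rw [← h, line_pr]
  · exfalso
    rw [hD.closed.frontier_eq] at hy
    apply hy.2
    rw [mem_interior_iff_mem_nhds]
    have hδ : 0 < tau σ D (pr σ y) - sg σ 2 * y 2 := by linarith
    filter_upwards [cube_mem_nhds y hδ] with w hw
    refine hD.down _ (gg_mem hD (pr σ y)) _ ?_
    intro i
    have e1 : gg σ D (pr σ y) i = y i + (tau σ D (pr σ y) - sg σ 2 * y 2) * sg σ i := by
      have : gg σ D (pr σ y) = y + (tau σ D (pr σ y) - sg σ 2 * y 2) • dir σ := by
        conv_rhs => rw [← line_pr σ y]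
        unfold gg
        rw [add_assoc, ← add_smul]
        congr 2
        rw [line_pr]; ring
      rw [this]; rfl
    rw [e1]
    have h2 := sg_mul_self σ i
    have h3 : sg σ i * (w i - y i) ≤ tau σ D (pr σ y) - sg σ 2 * y 2 := by
      have : |sg σ i * (w i - y i)| < tau σ D (pr σ y) - sg σ 2 * y 2 := by
        rw [abs_mul, abs_sg, one_mul]; exact hw i
      exact (le_abs_self _).trans this.le
    have e2 : sg σ i * (y i + (tau σ D (pr σ y) - sg σ 2 * y 2) * sg σ i) =
        sg σ i * y i + (tau σ D (pr σ y) - sg σ 2 * y 2) := by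
      linear_combination (tau σ D (pr σ y) - sg σ 2 * y 2) * h2
    rw [e2]; linarith

variable {occ : (Fin 3 → ℤ) → Prop}

/-- the cone of the body at the point `x` -/
def cone (occ : (Fin 3 → ℤ) → Prop) (x : E3) : Set E3 := {y | ∃ s, occ (pat x (adj x y s))}

theorem cone_closed (x : E3) : IsClosed (cone occ x) := by
  rw [← isOpen_compl_iff, isOpen_iff_mem_nhds]
  intro y hy
  have h : ∀ᶠ w in 𝓝 y, ∀ i, (x i < y i → x i < w i) ∧ (y i < x i → w i < x i) := by
    rw [eventually_all]
    intro i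
    have hc : Tendsto (fun w : E3 => w i) (𝓝 y) (𝓝 (y i)) :=
      Continuous.tendsto (by fun_prop) y
    rcases lt_trichotomy (x i) (y i) with h | h | h
    · filter_upwards [hc (lt_mem_nhds h)] with w hw
      exact ⟨fun _ => hw, fun h' => absurd h' (not_lt.2 h.le)⟩
    · filter_upwards with w
      exact ⟨fun h' => absurd h' (by rw [h]; exact lt_irrefl _),
        fun h' => absurd h' (by rw [h]; exact lt_irrefl _)⟩
    · filter_upwards [hc (gt_mem_nhds h)] with w hw
      exact ⟨fun h' => absurd h' (not_lt.2 h.le), fun _ => hw⟩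
  filter_upwards [h] with w hw
  rintro ⟨s, hs⟩
  apply hy
  refine ⟨adj x w s, ?_⟩
  convert hs using 2
  funext i
  by_cases h1 : x i < y i
  · simp [adj, h1, (hw i).1 h1]
  · by_cases h2 : y i < x i
    · have h3 := (hw i).2 h2
      simp [adj, h1, h2, h3, not_lt.2 h3.le]
    · simp [adj, h1, h2]

/-- the pattern at `x` is a down set in the direction opposite to the octant `σ` -/
def DS (occ : (Fin 3 → ℤ) → Prop) (x : E3) (σ : Fin 3 → Bool) : Prop :=
  ∀ s s' : Fin 3 → Bool, (∀ i, s' i = s i ∨ s' i = !σ i) → occ (pat x s) → occ (pat x s')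

theorem cone_downSet {x : E3} (hx : x ∈ frontier (body occ)) (h : DS occ x σ) :
    DownSet σ (cone occ x) := by
  rw [mem_frontier_body] at hx
  obtain ⟨⟨s1, h1⟩, s2, h2⟩ := hx
  refine ⟨cone_closed x, ?_, ?_, ?_⟩
  · rintro y ⟨s, hs⟩ w hw
    refine ⟨adj x y s, h _ _ (fun i => ?_) hs⟩
    have hwi := hw i
    unfold sg at hwi
    cases hσ : σ i
    · simp only [hσ, Bool.false_eq_true, if_false] at hwi
      have hwi' : y i ≤ w i := by linarith
      by_cases h3 : x i < w i
      · right; simp [adj, h3]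
      · left
        by_cases h4 : w i < x i
        · have h5 : y i < x i := lt_of_le_of_lt hwi' h4
          simp [adj, h3, h4, h5, not_lt.2 h5.le]
        · simp [adj, h3, h4]
    · simp only [hσ, if_true] at hwi
      have hwi' : w i ≤ y i := by linarith
      by_cases h3 : w i < x i
      · right; simp [adj, h3, not_lt.2 h3.le]
      · left
        by_cases h4 : x i < w i
        · have h5 : x i < y i := lt_of_lt_of_le h4 hwi'
          simp [adj, h4, h5]
        · simp [adj, h3, h4]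
  · refine ⟨x + (1 : ℝ) • dir (fun i => !σ i), fun _ => true, ?_⟩
    rw [adj_dir x _ _ one_pos]
    exact h s1 _ (fun i => Or.inr rfl) h1
  · refine ⟨x + (1 : ℝ) • dir σ, ?_⟩
    rintro ⟨s, hs⟩
    rw [adj_dir x _ _ one_pos] at hs
    exact h2 (h σ s2 (fun i => by cases s2 i <;> cases σ i <;> simp) hs)

theorem frontier_local {A B U : Set E3} (hU : IsOpen U) (h : ∀ y ∈ U, y ∈ A ↔ y ∈ B) :
    frontier A ∩ U = frontier B ∩ U := by
  have h1 : ∀ y ∈ U, A =ᶠ[𝓝 y] B := by
    intro y hy
    filter_upwards [hU.mem_nhds hy] with w hw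
    exact propext (h w hw)
  ext y
  simp only [mem_inter_iff]
  refine and_congr_left fun hy => ?_
  have e := h1 y hy
  simp only [frontier, Set.mem_sdiff, mem_closure_iff_frequently, mem_interior_iff_mem_nhds]
  have e' : ∀ᶠ w in 𝓝 y, (w ∈ A) = (w ∈ B) := e
  have i1 : (∃ᶠ w in 𝓝 y, w ∈ A) ↔ (∃ᶠ w in 𝓝 y, w ∈ B) :=
    ⟨fun hh => (hh.and_eventually e').mono fun w hw => hw.2 ▸ hw.1,
      fun hh => (hh.and_eventually e').mono fun w hw => hw.2 ▸ hw.1⟩
  have i2 : A ∈ 𝓝 y ↔ B ∈ 𝓝 y :=
    ⟨fun hh => by filter_upwards [hh, e'] with w h1 h2; exact h2 ▸ h1,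
      fun hh => by filter_upwards [hh, e'] with w h1 h2; exact h2 ▸ h1⟩
  rw [i1, i2]

/-- If the pattern at the boundary point `x` is a down set, then the boundary is a surface
near `x`. -/
theorem surface_of_DS {x : E3} (hx : x ∈ frontier (body occ)) (h : DS occ x σ) :
    ∃ U : Set E3, IsOpen U ∧ x ∈ U ∧
      ∃ V : Set E2, IsOpen V ∧ Nonempty (↥(frontier (body occ) ∩ U) ≃ₜ ↥V) := by
  have hD := cone_downSet hx h
  obtain ⟨ε, hε, hn⟩ := pat_near x
  set U : Set E3 := {y : E3 | ∀ i, |y i - x i| < ε} with hU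
  have hUo : IsOpen U := isOpen_cube x ε
  have hloc : frontier (body occ) ∩ U = frontier (cone occ x) ∩ U := by
    apply frontier_local hUo
    intro y hy
    constructor
    · rintro ⟨s, hs⟩
      rw [hn y hy s] at hs
      exact ⟨s, hs⟩
    · rintro ⟨s, hs⟩
      rw [← hn y hy s] at hs
      exact ⟨s, hs⟩
  refine ⟨U, hUo, by intro i; simpa using hε, {p | gg σ (cone occ x) p ∈ U},
    hUo.preimage (continuous_gg hD), ?_⟩
  rw [hloc]
  refine ⟨{
    toFun := fun y => ⟨pr σ y.1, by
      show gg σ (cone occ x) (pr σ y.1) ∈ U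
      rw [gg_pr hD y.2.1]; exact y.2.2⟩
    invFun := fun p => ⟨gg σ (cone occ x) p.1, gg_mem_frontier hD p.1, p.2⟩
    left_inv := fun y => Subtype.ext (gg_pr hD y.2.1)
    right_inv := fun p => Subtype.ext (pr_line σ p.1 _)
    continuous_toFun := by
      apply Continuous.subtype_mk
      exact continuous_pr.comp continuous_subtype_val
    continuous_invFun := by
      apply Continuous.subtype_mk
      exact (continuous_gg hD).comp continuous_subtype_val }⟩

end Pool.Agent.H248R2.Ortho
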