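import Pool.Agent.H248R2.OrthoStack
import Pool.Agent.H248R2.OrthoCheck2

set_option autoImplicit false

open Set Metric Topology Filter

namespace Pool.Agent.H248R2.Ortho

/-! ### products of intervals -/

def Iv.mem (c : Iv) (t : ℝ) : Prop :=
  if c.2.2 then (c.1 : ℝ) < t ∧ t < c.2.1 else (c.1 : ℝ) ≤ t ∧ t ≤ c.2.1

theorem ivB_iff {t : ℝ} {a : ℕ} {f : Bool} (h : HasType t a f) (c : Iv) :
    ivB c a f = true ↔ Iv.mem c t := by
  obtain ⟨p, q, o⟩ := c
  cases o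
  · simp only [ivB, cond_false, Iv.mem, Bool.false_eq_true, if_false]
    exact h.inB_iff p q
  · simp only [ivB, cond_true, Iv.mem, if_true]
    rcases idx_cases t with ⟨h1, h2, h3⟩ | ⟨h1, h2⟩
    · have hf : f = false := by
        cases f
        · rfl
        · have e1 := h.1
          have e2 := h.2
          simp only [if_true] at e2
          omega
      subst hf
      have h4 : idx t true = (a : ℤ) - 1 := by rw [h.2]; simp
      rw [h4] at h2 h3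
      push_cast at h2 h3
      simp only [cond_false, Bool.and_eq_true, Nat.ble_eq, Nat.blt_eq]
      constructor
      · rintro ⟨h5, h6⟩
        have h5' : (p : ℝ) + 1 ≤ a := by exact_mod_cast h5
        have h6' : (a : ℝ) ≤ q := by exact_mod_cast h6
        constructor <;> linarith
      · rintro ⟨h5, h6⟩
        have h5' : (p : ℝ) < a := by linarith
        have h6' : (a : ℝ) < q + 1 := by linarith
        constructor
        · exact_mod_cast h5'
        · have : a < q + 1 := by exact_mod_cast h6'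
          omega
    · have hf : f = true := by
        cases f
        · rw [h.1, h.2] at h1; simp at h1
        · rfl
      subst hf
      have h4 : idx t true = (a : ℤ) := by rw [h.2]; simp
      rw [h4] at h2
      push_cast at h2
      simp only [cond_true, Bool.and_eq_true, Nat.blt_eq]
      rw [h2]
      simp only [Nat.cast_lt]

def Bx.set (e : Bx) : Set E3 := {x | Iv.mem e.1 (x 0) ∧ Iv.mem e.2.1 (x 1) ∧ Iv.mem e.2.2 (x 2)}

def Reg (L : List Bx) : Set E3 := {x | ∃ e ∈ L, x ∈ Bx.set e}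

section types

variable {x : E3} {a0 a1 a2 : ℕ} {f0 f1 f2 : Bool}

theorem bxB_iff (h0 : HasType (x 0) a0 f0) (h1 : HasType (x 1) a1 f1) (h2 : HasType (x 2) a2 f2)
    (e : Bx) : bxB e a0 a1 a2 f0 f1 f2 = true ↔ x ∈ Bx.set e := by
  simp only [bxB, Bool.and_eq_true, ivB_iff h0, ivB_iff h1, ivB_iff h2, Bx.set, mem_ofPred_eq]
  tauto

theorem regB_iff (h0 : HasType (x 0) a0 f0) (h1 : HasType (x 1) a1 f1) (h2 : HasType (x 2) a2 f2)
    (L : List Bx) : regB L a0 a1 a2 f0 f1 f2 = true ↔ x ∈ Reg L := by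
  simp only [regB, List.any_eq_true, bxB_iff h0 h1 h2, Reg, mem_ofPred_eq]

end types

theorem chk_imp {P : ℕ → ℕ → ℕ → Bool → Bool → Bool → Bool} (h : chk P = true) {a0 a1 a2 : ℕ}
    (h0 : a0 < 6) (h1 : a1 < 8) (h2 : a2 < 6) (f0 f1 f2 : Bool) :
    P a0 a1 a2 f0 f1 f2 = true := by
  simp only [chk, List.all_eq_true, List.mem_range] at h
  exact (allB_iff _).1 (h a0 h0 a1 h1 a2 h2) ![f0, f1, f2]

theorem types_of_bdd {x : E3}
    (hb : ((0 : ℝ) ≤ x 0 ∧ x 0 ≤ 5) ∧ ((0 : ℝ) ≤ x 1 ∧ x 1 ≤ 7) ∧ ((0 : ℝ) ≤ x 2 ∧ x 2 ≤ 5)) :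
    ∃ a0 a1 a2 f0 f1 f2, HasType (x 0) a0 f0 ∧ HasType (x 1) a1 f1 ∧ HasType (x 2) a2 f2 ∧
      a0 < 6 ∧ a1 < 8 ∧ a2 < 6 := by
  have key : ∀ (t : ℝ) (n : ℕ), 0 ≤ t → t ≤ n → -1 ≤ idx t false ∧ idx t false < n := by
    intro t n h1 h2
    simp only [idx, Bool.false_eq_true, if_false]
    have e1 : (0 : ℤ) ≤ ⌈t⌉ := Int.ceil_nonneg h1
    have e2 : ⌈t⌉ ≤ (n : ℤ) := Int.ceil_le.2 (by exact_mod_cast h2)
    omega
  obtain ⟨k0, k0'⟩ := key (x 0) 5 hb.1.1 (by exact_mod_cast hb.1.2)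
  obtain ⟨k1, k1'⟩ := key (x 1) 7 hb.2.1.1 (by exact_mod_cast hb.2.1.2)
  obtain ⟨k2, k2'⟩ := key (x 2) 5 hb.2.2.1 (by exact_mod_cast hb.2.2.2)
  obtain ⟨a0, f0, h0⟩ := exists_type _ k0
  obtain ⟨a1, f1, h1⟩ := exists_type _ k1
  obtain ⟨a2, f2, h2⟩ := exists_type _ k2
  refine ⟨a0, a1, a2, f0, f1, f2, h0, h1, h2, ?_, ?_, ?_⟩
  · have := h0.1; omega
  · have := h1.1; omega
  · have := h2.1; omega

theorem mem_flat_of {x : E3} {a0 a1 a2 : ℕ} {f0 f1 f2 : Bool} (h0 : HasType (x 0) a0 f0)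
    (h1 : HasType (x 1) a1 f1) (h2 : HasType (x 2) a2 f2) :
    pfB (patB a0 a1 a2 f0 f1 f2) = true ↔ x ∈ flatPoints (body occ) := by
  rw [pfB_iff h0 h1 h2, flat_iff]

/-! ### the tower -/

def T : Set E3 := Bx.set boxT

/-- the facts about the tower -/
theorem tower_facts {x : E3} (hx : x ∈ frontier (body occ)) :
    (x ∈ T → x ∉ Reg regO → x ∈ Reg regGam ∨ x ∈ Reg regV) ∧
    (x ∈ flatPoints (body occ) → (x ∈ T ↔ x ∈ Reg regO)) := by
  obtain ⟨a0, a1, a2, f0, f1, f2, h0, h1, h2, b0, b1, b2⟩ := types_of_frontier hx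
  have hc := chk_imp towerB_all b0 b1 b2 f0 f1 f2
  have hfr := (frB_iff h0 h1 h2).2 hx
  rw [T, ← bxB_iff h0 h1 h2, ← regB_iff h0 h1 h2, ← regB_iff h0 h1 h2, ← regB_iff h0 h1 h2,
    ← mem_flat_of h0 h1 h2]
  simp only [towerB, hfr, cond_true] at hc
  cases e1 : bxB boxT a0 a1 a2 f0 f1 f2 <;> cases e2 : regB regO a0 a1 a2 f0 f1 f2 <;>
    simp only [e1, e2, cond_true, cond_false, Bool.and_eq_true, Bool.or_eq_true,
      Bool.not_eq_true'] at hc <;> simp [hc]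

theorem flat_subset : flatPoints (body occ) ⊆ frontier (body occ) := fun _ hx => hx.1

theorem isClosed_T : IsClosed T := by
  have : T = {x : E3 | ((1 : ℝ) ≤ x 0 ∧ x 0 ≤ 4)} ∩ ({x : E3 | ((3 : ℝ) ≤ x 1 ∧ x 1 ≤ 6)} ∩
      {x : E3 | ((1 : ℝ) ≤ x 2 ∧ x 2 ≤ 5)}) := by
    ext x
    simp [T, Bx.set, boxT, Iv.mem]
  rw [this]
  have hc : ∀ i, Continuous fun x : E3 => x i := fun i => by fun_prop
  refine IsClosed.inter ?_ (IsClosed.inter ?_ ?_)
  · exact (isClosed_le continuous_const (hc 0)).inter (isClosed_le (hc 0) continuous_const)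
  · exact (isClosed_le continuous_const (hc 1)).inter (isClosed_le (hc 1) continuous_const)
  · exact (isClosed_le continuous_const (hc 2)).inter (isClosed_le (hc 2) continuous_const)

theorem isOpen_bx {e : Bx} (h0 : e.1.2.2 = true) (h1 : e.2.1.2.2 = true) (h2 : e.2.2.2.2 = true) :
    IsOpen (Bx.set e) := by
  have hc : ∀ i, Continuous fun x : E3 => x i := fun i => by fun_prop
  have : Bx.set e = {x : E3 | ((e.1.1 : ℝ) < x 0 ∧ x 0 < e.1.2.1)} ∩
      ({x : E3 | ((e.2.1.1 : ℝ) < x 1 ∧ x 1 < e.2.1.2.1)} ∩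
      {x : E3 | ((e.2.2.1 : ℝ) < x 2 ∧ x 2 < e.2.2.2.1)}) := by
    ext x
    simp [Bx.set, Iv.mem, h0, h1, h2]
  rw [this]
  refine IsOpen.inter ?_ (IsOpen.inter ?_ ?_)
  · exact (isOpen_lt continuous_const (hc 0)).inter (isOpen_lt (hc 0) continuous_const)
  · exact (isOpen_lt continuous_const (hc 1)).inter (isOpen_lt (hc 1) continuous_const)
  · exact (isOpen_lt continuous_const (hc 2)).inter (isOpen_lt (hc 2) continuous_const)

theorem isOpen_O : IsOpen (Reg regO) := by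
  have : Reg regO = ⋃ e ∈ regO, Bx.set e := by
    ext x; simp [Reg]
  rw [this]
  apply isOpen_iUnion; intro e
  apply isOpen_iUnion; intro he
  apply isOpen_bx <;> revert e <;> decide

/-- the flat component of a point -/
abbrev comp (x : E3) : Set E3 := connectedComponentIn (flatPoints (body occ)) x

theorem comp_dichotomy (x : E3) : comp x ⊆ T ∨ Disjoint (comp x) T := by
  by_contra hcon
  push Not at hcon
  obtain ⟨h1, h2⟩ := hcon
  rw [Set.not_subset] at h1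
  obtain ⟨y, hy, hyT⟩ := h1
  rw [Set.not_disjoint_iff] at h2
  obtain ⟨z, hz, hzT⟩ := h2
  have hpc : IsPreconnected (comp x) := isPreconnected_connectedComponentIn
  have hsub : comp x ⊆ flatPoints (body occ) := connectedComponentIn_subset _ _
  have hfact : ∀ w ∈ comp x, (w ∈ T ↔ w ∈ Reg regO) := fun w hw =>
    (tower_facts (flat_subset (hsub hw))).2 (hsub hw)
  obtain ⟨w, hw, hw1, hw2⟩ := hpc (Reg regO) Tᶜ isOpen_O isClosed_T.isOpen_compl (by
    intro w hw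
    by_cases hwT : w ∈ T
    · exact Or.inl ((hfact w hw).1 hwT)
    · exact Or.inr hwT) ⟨z, hz, (hfact z hz).1 hzT⟩ ⟨y, hy, hyT⟩
  exact hw2 ((hfact w hw).2 hw1)

/-- common boundary points of faces of the tower and other faces -/
theorem mem_gam {x y z : E3} (hx : comp x ⊆ T) (hy : Disjoint (comp y) T)
    (hzx : z ∈ closure (comp x)) (hzy : z ∈ closure (comp y)) :
    z ∈ Reg regGam ∨ z ∈ Reg regV := by
  have hzT : z ∈ T := isClosed_T.closure_subset_iff.2 hx hzx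
  have hfr : z ∈ frontier (body occ) :=
    isClosed_frontier.closure_subset_iff.2
      ((connectedComponentIn_subset _ _).trans flat_subset) hzx
  refine (tower_facts hfr).1 hzT fun hzO => ?_
  obtain ⟨w, hw1, hw2⟩ := mem_closure_iff.1 hzy _ isOpen_O hzO
  have hsub : comp y ⊆ flatPoints (body occ) := connectedComponentIn_subset _ _
  exact Set.disjoint_left.1 hy hw2
    (((tower_facts (flat_subset (hsub hw2))).2 (hsub hw2)).2 hw1)

/-! ### plane geometry -/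

theorem plane_real {u0 u1 x0 x1 y0 y1 z0 z1 w0 w1 : ℝ} (hu : u0 ≠ 0 ∨ u1 ≠ 0)
    (h1 : x0 ^ 2 + x1 ^ 2 = y0 ^ 2 + y1 ^ 2)
    (h2 : (x0 - u0) ^ 2 + (x1 - u1) ^ 2 = (y0 - u0) ^ 2 + (y1 - u1) ^ 2)
    (h3 : z0 ^ 2 + z1 ^ 2 = w0 ^ 2 + w1 ^ 2)
    (h4 : (z0 - u0) ^ 2 + (z1 - u1) ^ 2 = (w0 - u0) ^ 2 + (w1 - u1) ^ 2)
    (h5 : (x0 - z0) ^ 2 + (x1 - z1) ^ 2 ≠ (y0 - w0) ^ 2 + (y1 - w1) ^ 2) :
    (x0 = y0 ∧ x1 = y1) ∨ (z0 = w0 ∧ z1 = w1) := by
  have hpos : 0 < u0 ^ 2 + u1 ^ 2 := by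
    rcases hu with h | h
    · have := pow_pos (abs_pos.2 h) 2
      rw [sq_abs] at this
      nlinarith [sq_nonneg u1]
    · have := pow_pos (abs_pos.2 h) 2
      rw [sq_abs] at this
      nlinarith [sq_nonneg u0]
  have key : ∀ x0 x1 y0 y1 : ℝ, x0 ^ 2 + x1 ^ 2 = y0 ^ 2 + y1 ^ 2 →
      (x0 - u0) ^ 2 + (x1 - u1) ^ 2 = (y0 - u0) ^ 2 + (y1 - u1) ^ 2 →
      u0 * x0 + u1 * x1 = u0 * y0 + u1 * y1 ∧ ((x0 = y0 ∧ x1 = y1) ∨
        u0 * y1 - u1 * y0 = -(u0 * x1 - u1 * x0)) := by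
    intro x0 x1 y0 y1 e1 e2
    have hdot : u0 * x0 + u1 * x1 = u0 * y0 + u1 * y1 := by nlinarith
    refine ⟨hdot, ?_⟩
    have hsq : (u0 * x1 - u1 * x0) ^ 2 = (u0 * y1 - u1 * y0) ^ 2 := by
      have f1 : (u0 * x1 - u1 * x0) ^ 2 + (u0 * x0 + u1 * x1) ^ 2 =
          (u0 ^ 2 + u1 ^ 2) * (x0 ^ 2 + x1 ^ 2) := by ring
      have f2 : (u0 * y1 - u1 * y0) ^ 2 + (u0 * y0 + u1 * y1) ^ 2 =
          (u0 ^ 2 + u1 ^ 2) * (y0 ^ 2 + y1 ^ 2) := by ring
      rw [hdot] at f1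
      rw [e1] at f1
      linarith
    rcases sq_eq_sq_iff_eq_or_eq_neg.1 hsq with h | h
    · left
      have g0 : (u0 ^ 2 + u1 ^ 2) * (x0 - y0) = 0 := by
        linear_combination u0 * hdot - u1 * h
      have g1 : (u0 ^ 2 + u1 ^ 2) * (x1 - y1) = 0 := by
        linear_combination u1 * hdot + u0 * h
      constructor
      · have := (mul_eq_zero.1 g0).resolve_left hpos.ne'
        linarith
      · have := (mul_eq_zero.1 g1).resolve_left hpos.ne'
        linarith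
    · right
      linarith
  obtain ⟨d1, c1⟩ := key x0 x1 y0 y1 h1 h2
  obtain ⟨d2, c2⟩ := key z0 z1 w0 w1 h3 h4
  rcases c1 with c1 | c1
  · exact Or.inl c1
  · rcases c2 with c2 | c2
    · exact Or.inr c2
    · exfalso
      apply h5
      have g : (u0 ^ 2 + u1 ^ 2) * ((x0 - z0) ^ 2 + (x1 - z1) ^ 2) =
          (u0 ^ 2 + u1 ^ 2) * ((y0 - w0) ^ 2 + (y1 - w1) ^ 2) := by
        have f1 : (u0 ^ 2 + u1 ^ 2) * ((x0 - z0) ^ 2 + (x1 - z1) ^ 2) =
          ((u0 * x0 + u1 * x1) - (u0 * z0 + u1 * z1)) ^ 2 +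
          ((u0 * x1 - u1 * x0) - (u0 * z1 - u1 * z0)) ^ 2 := by ring
        have f2 : (u0 ^ 2 + u1 ^ 2) * ((y0 - w0) ^ 2 + (y1 - w1) ^ 2) =
          ((u0 * y0 + u1 * y1) - (u0 * w0 + u1 * w1)) ^ 2 +
          ((u0 * y1 - u1 * y0) - (u0 * w1 - u1 * w0)) ^ 2 := by ring
        rw [f1, f2, c1, c2, d1, d2]
        ring
      exact mul_left_cancel₀ hpos.ne' g

theorem dist2 (P Q : E2) : dist P Q = √((P 0 - Q 0) ^ 2 + (P 1 - Q 1) ^ 2) := by
  rw [EuclideanSpace.dist_eq, Fin.sum_univ_two]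
  simp only [Real.dist_eq, sq_abs]

theorem dist3 (P Q : E3) : dist P Q = √((P 0 - Q 0) ^ 2 + (P 1 - Q 1) ^ 2 + (P 2 - Q 2) ^ 2) := by
  rw [EuclideanSpace.dist_eq, Fin.sum_univ_three]
  simp only [Real.dist_eq, sq_abs]

theorem dist2_eq {P Q P' Q' : E2} (h : dist P Q = dist P' Q') :
    (P 0 - Q 0) ^ 2 + (P 1 - Q 1) ^ 2 = (P' 0 - Q' 0) ^ 2 + (P' 1 - Q' 1) ^ 2 := by
  rw [dist2, dist2, Real.sqrt_inj (by positivity) (by positivity)] at h
  exact h

theorem plane_lemma {A B P1 P2 Q1 Q2 : E2} (hAB : A ≠ B) (h1 : dist P1 A = dist Q1 A)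
    (h2 : dist P1 B = dist Q1 B) (h3 : dist P2 A = dist Q2 A) (h4 : dist P2 B = dist Q2 B)
    (h5 : dist P1 P2 ≠ dist Q1 Q2) : P1 = Q1 ∨ P2 = Q2 := by
  have hu : B 0 - A 0 ≠ 0 ∨ B 1 - A 1 ≠ 0 := by
    by_contra hc
    push Not at hc
    apply hAB
    ext i
    fin_cases i
    · have := hc.1; show A 0 = B 0; linarith
    · have := hc.2; show A 1 = B 1; linarith
  have k1 := dist2_eq h1
  have k2 := dist2_eq h2
  have k3 := dist2_eq h3
  have k4 := dist2_eq h4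
  have k5 : (P1 0 - P2 0) ^ 2 + (P1 1 - P2 1) ^ 2 ≠ (Q1 0 - Q2 0) ^ 2 + (Q1 1 - Q2 1) ^ 2 := by
    intro h
    apply h5
    rw [dist2, dist2, h]
  have := @plane_real (B 0 - A 0) (B 1 - A 1) (P1 0 - A 0) (P1 1 - A 1) (Q1 0 - A 0) (Q1 1 - A 1)
    (P2 0 - A 0) (P2 1 - A 1) (Q2 0 - A 0) (Q2 1 - A 1) hu (by linarith) (by
      ring_nf; ring_nf at k2; linarith) (by linarith) (by ring_nf; ring_nf at k4; linarith) (by
      intro h; apply k5; ring_nf; ring_nf at h; linarith)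
  rcases this with ⟨a, b⟩ | ⟨a, b⟩
  · left
    ext i
    fin_cases i
    · show P1 0 = Q1 0; linarith
    · show P1 1 = Q1 1; linarith
  · right
    ext i
    fin_cases i
    · show P2 0 = Q2 0; linarith
    · show P2 1 = Q2 1; linarith

/-! ### convexity -/

theorem convex_bx (e : Bx) : Convex ℝ (Bx.set e) := by
  intro x hx y hy a b ha hb hab
  have key : ∀ (c : Iv) (u v : ℝ), Iv.mem c u → Iv.mem c v → Iv.mem c (a * u + b * v) := by
    intro c u v h1 h2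
    have hb' : b = 1 - a := by linarith
    subst hb'
    unfold Iv.mem at *
    split_ifs at * with ho
    · rcases ha.eq_or_lt with h | h
      · subst h; constructor <;> linarith
      · constructor <;> nlinarith
    · constructor <;> nlinarith
  exact ⟨key _ _ _ hx.1 hy.1, key _ _ _ hx.2.1 hy.2.1, key _ _ _ hx.2.2 hy.2.2⟩

theorem reg_single (e : Bx) : Reg [e] = Bx.set e := by
  ext x; simp [Reg]

theorem reg_cons (e : Bx) (L : List Bx) : Reg (e :: L) = Bx.set e ∪ Reg L := by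
  ext x; simp [Reg]

theorem pre_single (e : Bx) : IsPreconnected (Reg [e]) := by
  rw [reg_single]; exact (convex_bx e).isPreconnected

end Pool.Agent.H248R2.Ortho
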